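import Pool.Agent.R979.MD.Stm
import Pool.Agent.R732.MD.Dy

set_option autoImplicit false

open MeasureTheory Set Filter Topology

namespace Pool.Agent.R979.MD

theorem AE_aux (Z : ℕ → ENNReal) (ε : ℝ) (hε : 0 < ε) (hε1 : ε ≤ 1) (hZ : ∀ n, Z n ≠ ⊤)
    (h : ∑' n, Z n ^ ε ≠ ⊤) : ∑' n, Z n < ⊤ := by
  have h1 : Tendsto (fun n => Z n ^ ε) atTop (𝓝 0) := ENNReal.tendsto_atTop_zero_of_tsum_ne_top h
  have h2 : ∀ᶠ n in atTop, Z n ^ ε < 1 := h1.eventually (gt_mem_nhds (by norm_num))
  obtain ⟨N, hN⟩ := eventually_atTop.mp h2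
  have h3 : ∀ n, Z n ≤ (∑ i ∈ Finset.range N, if n = i then Z i else 0) + Z n ^ ε := by
    intro n
    by_cases hn : n < N
    · have : (∑ i ∈ Finset.range N, if n = i then Z i else 0) = Z n := by
        rw [Finset.sum_ite_eq]
        simp [hn]
      rw [this]
      exact le_self_add
    · have h4 := hN n (not_lt.mp hn)
      have h5 : Z n ≤ 1 := by
        by_contra hcon
        push Not at hcon
        have := ENNReal.one_lt_rpow hcon hε
        exact absurd h4 (not_lt.mpr this.le)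
      have h6 : Z n ≤ Z n ^ ε := by
        calc Z n = Z n ^ (1 : ℝ) := (ENNReal.rpow_one _).symm
          _ ≤ Z n ^ ε := ENNReal.rpow_le_rpow_of_exponent_ge h5 hε1
      exact le_trans h6 le_add_self
  calc ∑' n, Z n ≤ ∑' n, ((∑ i ∈ Finset.range N, if n = i then Z i else 0) + Z n ^ ε) :=
        ENNReal.tsum_le_tsum h3
    _ = (∑' n, ∑ i ∈ Finset.range N, if n = i then Z i else 0) + ∑' n, Z n ^ ε :=
        ENNReal.tsum_add
    _ = (∑ i ∈ Finset.range N, ∑' n, if n = i then Z i else 0) + ∑' n, Z n ^ ε := by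
        rw [Summable.tsum_finsetSum fun i _ => ENNReal.summable]
    _ < ⊤ := by
        rw [ENNReal.add_lt_top]
        refine ⟨ENNReal.sum_lt_top.mpr fun i _ => ?_, lt_top_iff_ne_top.mpr h⟩
        rw [tsum_ite_eq]
        exact lt_top_iff_ne_top.mpr (hZ i)

theorem t_AE : S_AE := by
  intro μ hμ hsupp ε θ C hε hε1 hθ hC
  have hmeas : ∀ n : ℕ, Measurable (fun x =>
      (ENNReal.ofReal (Real.exp (n * θ)) * μ (dy n x)) ^ ε) := fun n =>
    ((measurable_dy μ n).const_mul _).pow_const ε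
  -- the integral of one term
  have hint : ∀ n : ℕ, ∫⁻ x, (ENNReal.ofReal (Real.exp (n * θ)) * μ (dy n x)) ^ ε ∂μ ≤
      ENNReal.ofReal (∑ k ∈ Finset.range (2 ^ n),
        (μ.real (II n k)) ^ (1 + ε) * Real.exp (n * ε * θ)) := by
    intro n
    have hcov : ∀ᵐ x ∂μ, x ∈ ⋃ k ∈ Finset.range (2 ^ n), II n k := by
      have h1 : ∀ᵐ x ∂μ, x ∈ Ico (0 : ℝ) 1 := by
        rw [ae_iff]
        exact hsupp
      filter_upwards [h1] with x hx
      obtain ⟨k, hk, hxk⟩ := exists_II (n := n) hx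
      simp only [mem_iUnion]
      exact ⟨k, Finset.mem_range.mpr hk, hxk⟩
    have hrestr : ∫⁻ x, (ENNReal.ofReal (Real.exp (n * θ)) * μ (dy n x)) ^ ε ∂μ =
        ∫⁻ x in ⋃ k ∈ Finset.range (2 ^ n), II n k,
          (ENNReal.ofReal (Real.exp (n * θ)) * μ (dy n x)) ^ ε ∂μ := by
      rw [Measure.restrict_eq_self_of_ae_mem hcov]
    rw [hrestr]
    have hdisj : (↑(Finset.range (2 ^ n)) : Set ℕ).PairwiseDisjoint (II n) := by
      intro i _ j _ hij
      rw [Function.onFun, Set.disjoint_left]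
      intro x hi hj
      rw [mem_II_iff] at hi hj
      rw [hi] at hj
      exact hij (by exact_mod_cast hj)
    rw [lintegral_biUnion_finset hdisj fun k _ => measurableSet_II n k]
    rw [ENNReal.ofReal_sum_of_nonneg fun k _ => by positivity]
    apply Finset.sum_le_sum
    intro k _
    have h1 : ∫⁻ x in II n k, (ENNReal.ofReal (Real.exp (n * θ)) * μ (dy n x)) ^ ε ∂μ =
        ∫⁻ x in II n k, (ENNReal.ofReal (Real.exp (n * θ)) * μ (II n k)) ^ ε ∂μ := by
      apply setLIntegral_congr_fun (measurableSet_II n k)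
      intro x hx
      simp only
      rw [dy_eq_II hx]
    rw [h1, setLIntegral_const]
    have h2 : μ (II n k) = ENNReal.ofReal (μ.real (II n k)) := by
      rw [ofReal_measureReal]
    have hm : 0 ≤ μ.real (II n k) := measureReal_nonneg
    rw [h2, ← ENNReal.ofReal_mul (Real.exp_nonneg _),
      ENNReal.ofReal_rpow_of_nonneg (by positivity) hε.le, ← ENNReal.ofReal_mul (by positivity)]
    apply ENNReal.ofReal_le_ofReal
    apply le_of_eq
    rw [Real.mul_rpow (Real.exp_nonneg _) hm, ← Real.exp_mul, Real.rpow_add' hm (by linarith),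
      Real.rpow_one]
    have : (n : ℝ) * θ * ε = n * ε * θ := by ring
    rw [this]
    ring
  have htot : ∫⁻ x, ∑' n : ℕ, (ENNReal.ofReal (Real.exp (n * θ)) * μ (dy n x)) ^ ε ∂μ ≤
      ENNReal.ofReal C := by
    rw [lintegral_tsum fun n => (hmeas n).aemeasurable]
    apply ENNReal.tsum_le_of_sum_range_le
    intro N
    calc ∑ n ∈ Finset.range N, ∫⁻ x, (ENNReal.ofReal (Real.exp (n * θ)) * μ (dy n x)) ^ ε ∂μ
        ≤ ∑ n ∈ Finset.range N, ENNReal.ofReal (∑ k ∈ Finset.range (2 ^ n),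
        (μ.real (II n k)) ^ (1 + ε) * Real.exp (n * ε * θ)) := Finset.sum_le_sum fun n _ => hint n
      _ = ENNReal.ofReal (∑ n ∈ Finset.range N, ∑ k ∈ Finset.range (2 ^ n),
        (μ.real (II n k)) ^ (1 + ε) * Real.exp (n * ε * θ)) := by
          rw [ENNReal.ofReal_sum_of_nonneg]
          intro n _
          apply Finset.sum_nonneg
          intro k _
          positivity
      _ ≤ ENNReal.ofReal C := ENNReal.ofReal_le_ofReal (hC N)
  have hae : ∀ᵐ x ∂μ, ∑' n : ℕ, (ENNReal.ofReal (Real.exp (n * θ)) * μ (dy n x)) ^ ε < ⊤ := by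
    apply ae_lt_top (Measurable.ennreal_tsum hmeas)
    exact ne_top_of_le_ne_top ENNReal.ofReal_ne_top htot
  filter_upwards [hae] with x hx
  apply AE_aux _ ε hε hε1 _ hx.ne
  intro n
  exact ENNReal.mul_ne_top ENNReal.ofReal_ne_top (measure_ne_top _ _)

end Pool.Agent.R979.MD
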