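import Pool.Agent.R979.MD.Stm

/-! MD-BIG (helper515). -/

set_option autoImplicit false

open MeasureTheory Set Filter Topology

namespace Pool.Agent.R979.MD

namespace BIGaux

theorem dy_eq {n k : ℕ} {x : ℝ} (hx : x ∈ II n k) : dy n x = II n k := by
  have h2 : (0 : ℝ) < 2 ^ n := by positivity
  have h : ⌊(2 : ℝ) ^ n * x⌋ = (k : ℤ) := by
    rw [Int.floor_eq_iff]
    obtain ⟨h3, h4⟩ := hx
    rw [div_le_iff₀ h2] at h3
    rw [lt_div_iff₀ h2] at h4
    push_cast
    constructor <;> linarith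
  unfold dy II
  rw [h]
  push_cast
  rfl

theorem II_sub {n k : ℕ} (hk : k < 2 ^ n) : II n k ⊆ Ico 0 1 := by
  have h2 : (0 : ℝ) < 2 ^ n := by positivity
  rintro x ⟨h3, h4⟩
  constructor
  · exact le_trans (by positivity) h3
  · refine lt_of_lt_of_le h4 ?_
    rw [div_le_one h2]
    exact_mod_cast hk

theorem II_disj {n k k' : ℕ} (h : k ≠ k') : Disjoint (II n k) (II n k') := by
  have h2 : (0 : ℝ) < 2 ^ n := by positivity
  rw [Set.disjoint_left]
  rintro x ⟨h3, h4⟩ ⟨h5, h6⟩
  rw [div_le_iff₀ h2] at h3 h5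
  rw [lt_div_iff₀ h2] at h4 h6
  apply h
  have a1 : (k : ℝ) < k' + 1 := by linarith
  have a2 : (k' : ℝ) < k + 1 := by linarith
  have a3 : k < k' + 1 := by exact_mod_cast a1
  have a4 : k' < k + 1 := by exact_mod_cast a2
  omega

theorem meas_dy (μ : Measure ℝ) (n : ℕ) : Measurable fun x : ℝ => μ.real (dy n x) := by
  have h1 : Measurable fun x : ℝ => ⌊(2 : ℝ) ^ n * x⌋ :=
    Int.measurable_floor.comp (measurable_const.mul measurable_id)
  have h2 : Measurable fun j : ℤ => μ.real (Ico ((j : ℝ) / 2 ^ n) (((j : ℝ) + 1) / 2 ^ n)) :=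
    measurable_of_countable _
  exact h2.comp h1

end BIGaux

open BIGaux

theorem t_BIG : S_BIG := by
  intro μ hμ θ c hc hyp
  let B : ℕ → Set ℝ := fun M =>
    Ico 0 1 ∩ ⋃ n : ℕ, {x : ℝ | (M : ℝ) ≤ Real.exp (n * θ) * μ.real (dy n x)}
  have hBm : ∀ M, MeasurableSet (B M) := by
    intro M
    refine measurableSet_Ico.inter (MeasurableSet.iUnion fun n => ?_)
    exact measurableSet_le measurable_const ((meas_dy μ n).const_mul _)
  have hBanti : Antitone B := by
    intro M M' hMM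
    refine inter_subset_inter_right _ (iUnion_mono fun n => ?_)
    intro x hx
    have h1 : (M : ℝ) ≤ M' := by exact_mod_cast hMM
    exact h1.trans hx
  have hBc : ∀ M, ENNReal.ofReal c ≤ μ (B M) := by
    intro M
    obtain ⟨n, hn⟩ := hyp M
    set S := (Finset.range (2 ^ n)).filter
      (fun k => (M : ℝ) ≤ Real.exp (n * θ) * μ.real (II n k)) with hS
    have h1 : μ.real (⋃ k ∈ S, II n k) = ∑ k ∈ S, μ.real (II n k) := by
      refine measureReal_biUnion_finset ?_ fun k _ => measurableSet_Ico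
      intro k _ k' _ hkk
      exact II_disj hkk
    have h2 : (⋃ k ∈ S, II n k) ⊆ B M := by
      intro x hx
      simp only [mem_iUnion, exists_prop] at hx
      obtain ⟨k, hk, hxk⟩ := hx
      rw [hS, Finset.mem_filter, Finset.mem_range] at hk
      refine ⟨II_sub hk.1 hxk, ?_⟩
      rw [mem_iUnion]
      refine ⟨n, ?_⟩
      rw [mem_ofPred_eq, dy_eq hxk]
      exact hk.2
    have h3 : c ≤ μ.real (B M) := by
      refine hn.trans ?_
      rw [← h1]
      exact measureReal_mono h2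
    exact (ENNReal.ofReal_le_ofReal h3).trans (le_of_eq (ENNReal.ofReal_toReal (measure_ne_top _ _)))
  refine ⟨⋂ M, B M, MeasurableSet.iInter hBm, ?_, ?_, ?_⟩
  · intro x hx
    exact (mem_iInter.1 hx 0).1
  · intro x hx M
    obtain ⟨M', hM'⟩ := exists_nat_ge M
    have h1 := (mem_iInter.1 hx M').2
    rw [mem_iUnion] at h1
    obtain ⟨n, hn⟩ := h1
    exact ⟨n, hM'.trans hn⟩
  · have h1 := tendsto_measure_iInter_atTop (μ := μ) (s := B)
      (fun M => (hBm M).nullMeasurableSet) hBanti ⟨0, measure_ne_top _ _⟩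
    have h2 : ENNReal.ofReal c ≤ μ (⋂ M, B M) := ge_of_tendsto' h1 hBc
    intro h3
    rw [h3] at h2
    have h4 : ENNReal.ofReal c ≠ 0 := by
      rw [Ne, ENNReal.ofReal_eq_zero, not_le]; exact hc
    exact h4 (le_antisymm h2 zero_le)

end Pool.Agent.R979.MD
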