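import Pool.Agent.R979.MD.Stm

set_option autoImplicit false

open MeasureTheory Set Filter Topology

/-!
# MD-CAP: capacity of sets of positive measure
-/

namespace Pool.Agent.R979.MD

namespace CAP

theorem measurable_dy (μ : Measure ℝ) (n : ℕ) : Measurable (fun x : ℝ => μ (dy n x)) := by
  have h1 : Measurable (fun k : ℤ => μ (Ico ((k : ℝ) / 2 ^ n) (((k : ℝ) + 1) / 2 ^ n))) :=
    Measurable.of_discrete
  have h2 : Measurable (fun x : ℝ => ⌊(2 : ℝ) ^ n * x⌋) :=
    Int.measurable_floor.comp (measurable_const.mul measurable_id)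
  exact h1.comp h2

/-- the dyadic potential -/
noncomputable def pot (μ : Measure ℝ) (s : ℝ) (x : ℝ) : ENNReal :=
  ∑' n : ℕ, ENNReal.ofReal (Real.exp (n * (s * Real.log 2))) * μ (dy n x)

theorem measurable_pot (μ : Measure ℝ) (s : ℝ) : Measurable (pot μ s) :=
  Measurable.tsum fun n => (measurable_dy μ n).const_mul _

end CAP

open CAP in
theorem t_CAP (hEN : S_EN) : S_CAP := by
  intro μ hμ s hs0 hs1 hae K hK hK1 hQ
  by_contra hne
  obtain ⟨C, hC, hEn⟩ := hEN s hs0 hs1
  -- a level set of positive measure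
  have hae' : ∀ᵐ x ∂μ, pot μ s x < ⊤ := hae
  have hmeas := measurable_pot μ s
  have hcov : μ (⋃ M : ℕ, K ∩ {x | pot μ s x ≤ (M : ENNReal)}) ≠ 0 := by
    intro h0
    apply hne
    have hsub : K ⊆ (⋃ M : ℕ, K ∩ {x | pot μ s x ≤ (M : ENNReal)}) ∪ {x | ¬ pot μ s x < ⊤} := by
      intro x hx
      by_cases hx' : pot μ s x < ⊤
      · left
        obtain ⟨M, hM⟩ := ENNReal.exists_nat_gt hx'.ne
        exact mem_iUnion.2 ⟨M, hx, hM.le⟩
      · right; exact hx'
    refine measure_mono_null hsub ?_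
    exact measure_union_null h0 (ae_iff.1 hae')
  obtain ⟨M, hM⟩ : ∃ M : ℕ, μ (K ∩ {x | pot μ s x ≤ (M : ENNReal)}) ≠ 0 := by
    by_contra hcon
    push Not at hcon
    exact hcov (measure_iUnion_null hcon)
  have hAmeas : MeasurableSet (K ∩ {x | pot μ s x ≤ (M : ENNReal)}) :=
    hK.inter (measurableSet_le hmeas measurable_const)
  obtain ⟨F, hFsub, hFc, hFpos⟩ := hAmeas.exists_lt_isCompact_of_ne_top (measure_ne_top μ _)
    (pos_iff_ne_zero.2 hM)
  have hFm : MeasurableSet F := hFc.measurableSet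
  -- the test measure
  set ω : Measure ℝ := μ.restrict F with hω
  have hωfin : IsFiniteMeasure ω := inferInstance
  have hωle : ω ≤ μ := Measure.restrict_le_self
  have hωK : ω K = μ F := by
    rw [hω, Measure.restrict_apply hK]
    congr 1
    exact inter_eq_right.2 fun x hx => (hFsub hx).1
  have hener : energy ((1 - s) / 2) ω ≠ ⊤ := by
    have h1 := hEn ω hωfin
    refine ne_top_of_le_ne_top ?_ h1
    refine ENNReal.mul_ne_top hC ?_
    have h2 : ∑' n : ℕ, ENNReal.ofReal (Real.exp (n * (s * Real.log 2))) * ∫⁻ x, ω (dy n x) ∂ω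
        ≤ ∫⁻ x, pot μ s x ∂ω := by
      unfold pot
      rw [lintegral_tsum fun n => ((measurable_dy μ n).const_mul _).aemeasurable]
      refine ENNReal.tsum_le_tsum fun n => ?_
      rw [lintegral_const_mul _ (measurable_dy μ n)]
      gcongr
    refine ne_top_of_le_ne_top ?_ h2
    have h3 : ∫⁻ x, pot μ s x ∂ω ≤ ∫⁻ x in F, (M : ENNReal) ∂μ := by
      refine setLIntegral_mono_ae' hFm ?_
      exact Eventually.of_forall fun x hx => (hFsub hx).2
    refine ne_top_of_le_ne_top ?_ h3
    rw [setLIntegral_const]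
    exact ENNReal.mul_ne_top (ENNReal.natCast_ne_top M) (measure_ne_top μ F)
  have hle : (ω K) ^ 2 / energy ((1 - s) / 2) ω ≤ Qap ((1 - s) / 2) K := by
    unfold Qap
    refine le_iSup_of_le ω (le_iSup_of_le hωfin (le_iSup_of_le ⟨F, hFc.isClosed, fun x hx =>
      (hFsub hx).1, ?_⟩ le_rfl))
    rw [hω, Measure.restrict_apply hFm.compl]
    simp
  rw [hQ, hωK, nonpos_iff_eq_zero, ENNReal.div_eq_zero_iff] at hle
  rcases hle with h | h
  · exact hFpos.ne' (by simpa using h)
  · exact hener h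

end Pool.Agent.R979.MD
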