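import Mathlib

set_option autoImplicit false

open MeasureTheory Set Filter Topology

/-!
# Möbius de Rham measures and capacities (MP_19f6dc_an): definitions and statements of the pieces
-/

namespace Pool.Agent.R979.MD

/-! ## The objects of the problem -/

/-- `F₀(x) = x / ((γ - λ) x + λ)`. -/
noncomputable def F0 (l g x : ℝ) : ℝ := x / ((g - l) * x + l)

/-- `F₁(x) = ((q - 1) x + 1) / ((q - γ) x + γ)`. -/
noncomputable def F1 (g q x : ℝ) : ℝ := ((q - 1) * x + 1) / ((q - g) * x + g)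

/-- The trapping parameters `(λ, γ, q)`: `λ > 0`, `γ > 1`, `q > 0`, `λ ≥ 1` and `q ≥ γ - 1`. -/
def Trap (l g q : ℝ) : Prop := 0 < l ∧ 1 < g ∧ 0 < q ∧ 1 ≤ l ∧ g - 1 ≤ q

/-- `f` is the function of the problem: strictly increasing and left-continuous on `[0,1]`,
`f(0) = 0`, `f(1) = 1`, `f(x/2) = F₀(f(x))` and `f((x+1)/2) = F₁(f(x))`. -/
def IsDeRham (l g q : ℝ) (f : ℝ → ℝ) : Prop :=
  StrictMonoOn f (Icc 0 1) ∧ (∀ x ∈ Icc (0 : ℝ) 1, ContinuousWithinAt f (Icc 0 x) x) ∧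
    f 0 = 0 ∧ f 1 = 1 ∧
    ∀ x ∈ Icc (0 : ℝ) 1, f (x / 2) = F0 l g (f x) ∧ f ((x + 1) / 2) = F1 g q (f x)

/-- `r₀ = (γ - λ) / (λ - 1)`, and `+∞` for `λ = 1`. -/
noncomputable def r0 (l g : ℝ) : EReal := if l = 1 then ⊤ else (((g - l) / (l - 1) : ℝ) : EReal)

/-- `r₁ = q - γ`. -/
noncomputable def r1 (g q : ℝ) : EReal := ((q - g : ℝ) : EReal)

/-- `p₀(y) = (y + 1) / (y + γ)`, `p₀(∞) = 1`. -/
noncomputable def p0 (g : ℝ) (y : EReal) : ℝ :=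
  if y = ⊤ then 1 else (y.toReal + 1) / (y.toReal + g)

/-- `h(p) = - p log p - (1 - p) log (1 - p)`. -/
noncomputable def ent (p : ℝ) : ℝ := -(p * Real.log p) - (1 - p) * Real.log (1 - p)

/-- `α = min {0, r₀, r₁}`. -/
noncomputable def alpha (l g q : ℝ) : EReal := min 0 (min (r0 l g) (r1 g q))

/-- `β = max {0, r₀, r₁}`. -/
noncomputable def beta (l g q : ℝ) : EReal := max 0 (max (r0 l g) (r1 g q))

/-- `θ₀`, the minimum of `h(p₀(y))` over `y ∈ [α, β]`. -/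
noncomputable def theta0 (l g q : ℝ) : ℝ :=
  sInf ((fun y : EReal => ent (p0 g y)) '' Icc (alpha l g q) (beta l g q))

/-- `d₀ = θ₀ / log 2`. -/
noncomputable def d0 (l g q : ℝ) : ℝ := theta0 l g q / Real.log 2

/-- The kernel `|x - y|^(τ - 1)` with values in `[0, ∞]`. -/
noncomputable def kern (τ x y : ℝ) : ENNReal := (ENNReal.ofReal |x - y|) ^ (τ - 1)

/-- `∫₀¹ (∫₀¹ |x - y|^(τ - 1) dω(y))² dx`. -/
noncomputable def energy (τ : ℝ) (ω : Measure ℝ) : ENNReal :=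
  ∫⁻ x in Icc (0 : ℝ) 1, (∫⁻ y in Icc (0 : ℝ) 1, kern τ x y ∂ω) ^ 2

/-- `Qap_τ(E)`, the supremum over all finite measures `ω` with closed support contained in `E`. -/
noncomputable def Qap (τ : ℝ) (E : Set ℝ) : ENNReal :=
  ⨆ (ω : Measure ℝ) (_ : IsFiniteMeasure ω) (_ : ∃ F : Set ℝ, IsClosed F ∧ F ⊆ E ∧ ω Fᶜ = 0),
    (ω E) ^ 2 / energy τ ω

/-- `E` is `s`-polar, `0 ≤ s ≤ 1`: `Qap_{(1-s)/2}(E) = 0` for `s < 1`, no condition for `s = 1`. -/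
def IsPolar (s : ℝ) (E : Set ℝ) : Prop := s < 1 → Qap ((1 - s) / 2) E = 0

/-! ## The real recursion -/

noncomputable def G0 (l g y : ℝ) : ℝ := (y + g - l) / l
noncomputable def G1 (g q y : ℝ) : ℝ := (y * (q - 1) + (q - g)) / (y + g)
noncomputable def P0 (g y : ℝ) : ℝ := (y + 1) / (y + g)
noncomputable def P1 (g y : ℝ) : ℝ := (g - 1) / (y + g)

/-- masses of the `2ⁿ` dyadic intervals of level `n`, starting from the state `y` -/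
noncomputable def mm (l g q : ℝ) : ℕ → ℝ → ℕ → ℝ
  | 0, _, _ => 1
  | n + 1, y, k => if k < 2 ^ n then P0 g y * mm l g q n (G0 l g y) k
      else P1 g y * mm l g q n (G1 g q y) (k - 2 ^ n)

/-- Bernoulli masses -/
noncomputable def bb (p : ℝ) : ℕ → ℕ → ℝ
  | 0, _ => 1
  | n + 1, k => if k < 2 ^ n then p * bb p n k else (1 - p) * bb p n (k - 2 ^ n)

/-- the dyadic interval of length `2⁻ⁿ` which contains `x` -/
noncomputable def dy (n : ℕ) (x : ℝ) : Set ℝ :=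
  Ico ((⌊(2 : ℝ) ^ n * x⌋ : ℝ) / 2 ^ n) (((⌊(2 : ℝ) ^ n * x⌋ : ℝ) + 1) / 2 ^ n)

/-- the dyadic interval `[k/2ⁿ, (k+1)/2ⁿ)` -/
noncomputable def II (n k : ℕ) : Set ℝ := Ico ((k : ℝ) / 2 ^ n) (((k : ℝ) + 1) / 2 ^ n)

/-- the exceptional parameters -/
def Exc (l g q : ℝ) : Prop := r0 l g = r1 g q ∧ ent (p0 g (r1 g q)) ≤ ent (p0 g 0)

/-- left end of the state interval in the non-degenerate case -/
noncomputable def aa (l g q : ℝ) : ℝ := min 0 (min ((g - l) / (l - 1)) (q - g))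
/-- right end of the state interval in the non-degenerate case -/
noncomputable def bt (l g q : ℝ) : ℝ := max 0 (max ((g - l) / (l - 1)) (q - g))

/-! ## The pieces -/

def S_TREE : Prop := ∀ l g q : ℝ, Trap l g q → ∀ f : ℝ → ℝ, IsDeRham l g q f →
  ∀ n k : ℕ, k < 2 ^ n →
    f (((k : ℝ) + 1) / 2 ^ n) - f ((k : ℝ) / 2 ^ n) = mm l g q n 0 k

def S_LYAP : Prop := ∀ l g q : ℝ, Trap l g q → ∃ C : ℝ, ∀ N : ℕ,
  ∑ n ∈ Finset.range N, ∑ k ∈ Finset.range (2 ^ n), (mm l g q n 0 k) ^ 2 ≤ C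

def S_TH : Prop := ∀ l g q : ℝ, Trap l g q →
  0 ≤ theta0 l g q ∧ theta0 l g q ≤ Real.log 2 ∧
  ((l = 1 ∨ q = g - 1) → theta0 l g q = 0) ∧
  (1 < l → g - 1 < q → -1 < aa l g q ∧
    (∀ y ∈ Icc (aa l g q) (bt l g q), theta0 l g q ≤ ent (P0 g y)) ∧
    (∀ y ∈ Ioo (aa l g q) (bt l g q), theta0 l g q < ent (P0 g y)) ∧
    (theta0 l g q = ent (P0 g (aa l g q)) ∨ theta0 l g q = ent (P0 g (bt l g q))))

def S_PSI : Prop := ∀ l g q : ℝ, Trap l g q → 1 < l → g - 1 < q → ¬ Exc l g q →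
  theta0 l g q < Real.log 2 ∧ ∃ c : ℝ, 0 < c ∧
    ∀ y ∈ Icc (aa l g q) (bt l g q),
      G0 l g y ∈ Icc (aa l g q) (bt l g q) ∧ G1 g q y ∈ Icc (aa l g q) (bt l g q) ∧
      2 * theta0 l g q + c ≤
        ent (P0 g y) + P0 g y * ent (P0 g (G0 l g y)) + P1 g y * ent (P0 g (G1 g q y))

def S_KEPS : Prop := ∀ l g q θ c a b : ℝ, Trap l g q → 0 ≤ θ → 0 < c → -1 < a → a ≤ 0 → 0 ≤ b →
  (∀ y ∈ Icc a b, G0 l g y ∈ Icc a b ∧ G1 g q y ∈ Icc a b ∧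
      2 * θ + c ≤ ent (P0 g y) + P0 g y * ent (P0 g (G0 l g y)) +
        P1 g y * ent (P0 g (G1 g q y))) →
  ∃ ε : ℝ, 0 < ε ∧ ε ≤ 1 ∧ ∃ C : ℝ, ∀ N : ℕ,
    ∑ n ∈ Finset.range N, ∑ k ∈ Finset.range (2 ^ n),
      (mm l g q n 0 k) ^ (1 + ε) * Real.exp (n * ε * θ) ≤ C

def S_AE : Prop := ∀ μ : Measure ℝ, IsProbabilityMeasure μ → μ (Ico 0 1)ᶜ = 0 →
  ∀ ε θ C : ℝ, 0 < ε → ε ≤ 1 → 0 ≤ θ →
  (∀ N : ℕ, ∑ n ∈ Finset.range N, ∑ k ∈ Finset.range (2 ^ n),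
      (μ.real (II n k)) ^ (1 + ε) * Real.exp (n * ε * θ) ≤ C) →
  ∀ᵐ x ∂μ, ∑' n : ℕ, ENNReal.ofReal (Real.exp (n * θ)) * μ (dy n x) < ⊤

def S_EN : Prop := ∀ s : ℝ, 0 ≤ s → s < 1 → ∃ C : ENNReal, C ≠ ⊤ ∧
  ∀ ω : Measure ℝ, IsFiniteMeasure ω →
    energy ((1 - s) / 2) ω ≤
      C * ∑' n : ℕ, ENNReal.ofReal (Real.exp (n * (s * Real.log 2))) * ∫⁻ x, ω (dy n x) ∂ω

def S_CAP : Prop := ∀ μ : Measure ℝ, IsProbabilityMeasure μ → ∀ s : ℝ, 0 ≤ s → s < 1 →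
  (∀ᵐ x ∂μ, ∑' n : ℕ, ENNReal.ofReal (Real.exp (n * (s * Real.log 2))) * μ (dy n x) < ⊤) →
  ∀ K : Set ℝ, MeasurableSet K → K ⊆ Icc 0 1 → Qap ((1 - s) / 2) K = 0 → μ K = 0

def S_POL : Prop := ∀ μ : Measure ℝ, IsProbabilityMeasure μ → ∀ s : ℝ, 0 ≤ s → s < 1 →
  ∀ K : Set ℝ, MeasurableSet K → K ⊆ Ico 0 1 →
  (∀ x ∈ K, ∀ M : ℝ, ∃ n : ℕ, M ≤ Real.exp (n * (s * Real.log 2)) * μ.real (dy n x)) →
  Qap ((1 - s) / 2) K = 0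

def S_CMP : Prop := ∀ l g q : ℝ, Trap l g q → 1 < l → g - 1 < q → (g - l) / (l - 1) = q - g →
  ∃ C : ℝ, 0 < C ∧ ∀ n k : ℕ, k < 2 ^ n → bb (P0 g (q - g)) n k ≤ C * mm l g q n 0 k

def S_RW : Prop := ∀ p : ℝ, 0 < p → p < 1 → p ≠ 1 / 2 → ∃ c : ℝ, 0 < c ∧ ∀ a : ℝ, ∃ n : ℕ,
  c ≤ ∑ k ∈ (Finset.range (2 ^ n)).filter
    (fun k => a ≤ Real.exp (n * ent p) * bb p n k), bb p n k

def S_BIG : Prop := ∀ μ : Measure ℝ, IsProbabilityMeasure μ → ∀ θ c : ℝ, 0 < c →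
  (∀ a : ℝ, ∃ n : ℕ, c ≤ ∑ k ∈ (Finset.range (2 ^ n)).filter
    (fun k => a ≤ Real.exp (n * θ) * μ.real (II n k)), μ.real (II n k)) →
  ∃ K : Set ℝ, MeasurableSet K ∧ K ⊆ Ico 0 1 ∧
    (∀ x ∈ K, ∀ M : ℝ, ∃ n : ℕ, M ≤ Real.exp (n * θ) * μ.real (dy n x)) ∧ μ K ≠ 0

end Pool.Agent.R979.MD
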