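import Mathlib
import Pool.Agent.R979.MD.Stm

set_option autoImplicit false

namespace Pool.Agent.R979.MD

namespace CmpAux

lemma stay (m M r y z c : ℝ) (hc0 : 0 ≤ c) (hc1 : c ≤ 1) (hr1 : m ≤ r) (hr2 : r ≤ M)
    (hy1 : m ≤ y) (hy2 : y ≤ M) (hz : z - r = c * (y - r)) : m ≤ z ∧ z ≤ M := by
  have hz' : z = (1 - c) * r + c * y := by linarith
  constructor
  · rw [hz']
    nlinarith
  · rw [hz']
    nlinarith

lemma step_exp (K ρ c D : ℝ) (hK : 0 ≤ K) (hρ1 : ρ < 1) (hcρ : c ≤ ρ) (hD : 0 ≤ D) :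
    (1 + K * D) * Real.exp (K * (c * D) / (1 - ρ)) ≤ Real.exp (K * D / (1 - ρ)) := by
  have h1 := Real.add_one_le_exp (K * D)
  have h2 : (1 + K * D) * Real.exp (K * (c * D) / (1 - ρ)) ≤
      Real.exp (K * D) * Real.exp (K * (c * D) / (1 - ρ)) :=
    mul_le_mul_of_nonneg_right (by linarith) (Real.exp_pos _).le
  refine h2.trans ?_
  rw [← Real.exp_add, Real.exp_le_exp]
  have h3 : 0 < 1 - ρ := by linarith
  rw [le_div_iff₀ h3]
  have h4 : (K * D + K * (c * D) / (1 - ρ)) * (1 - ρ) = K * D * (1 - ρ) + K * (c * D) := by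
    field_simp
  rw [h4]
  have h5 : 0 ≤ K * D := mul_nonneg hK hD
  nlinarith

lemma main (l g q r ρ K m M : ℝ) (_hρ0 : 0 ≤ ρ) (hρ1 : ρ < 1) (hK : 0 ≤ K)
    (hr1 : m ≤ r) (hr2 : r ≤ M) (hm : -1 < m) (hg : 1 < g)
    (hG0 : ∀ y, m ≤ y → y ≤ M → ∃ c, 0 ≤ c ∧ c ≤ ρ ∧ G0 l g y - r = c * (y - r))
    (hG1 : ∀ y, m ≤ y → y ≤ M → ∃ c, 0 ≤ c ∧ c ≤ ρ ∧ G1 g q y - r = c * (y - r))
    (hP0 : ∀ y, m ≤ y → y ≤ M → P0 g r ≤ (1 + K * |y - r|) * P0 g y)
    (hP1 : ∀ y, m ≤ y → y ≤ M → P1 g r ≤ (1 + K * |y - r|) * P1 g y) :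
    ∀ (n k : ℕ) (y : ℝ), k < 2 ^ n → m ≤ y → y ≤ M → 0 ≤ bb (P0 g r) n k ∧
      0 ≤ mm l g q n y k ∧
      bb (P0 g r) n k ≤ Real.exp (K * |y - r| / (1 - ρ)) * mm l g q n y k := by
  have hpos0 : ∀ y, m ≤ y → 0 ≤ P0 g y := by
    intro y hy
    unfold P0
    exact div_nonneg (by linarith) (by linarith)
  have hpos1 : ∀ y, m ≤ y → 0 ≤ P1 g y := by
    intro y hy
    unfold P1
    exact div_nonneg (by linarith) (by linarith)
  have hsum : 1 - P0 g r = P1 g r := by
    unfold P0 P1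
    have : r + g ≠ 0 := by
      have : 0 < r + g := by linarith
      exact this.ne'
    field_simp
    ring
  intro n
  induction n with
  | zero =>
    intro k y _ _ _
    refine ⟨by simp [bb], by simp [mm], ?_⟩
    simp only [bb, mm, mul_one]
    apply Real.one_le_exp
    have : 0 < 1 - ρ := by linarith
    positivity
  | succ n ih =>
    intro k y hk hy1 hy2
    have step : ∀ (A A' B B' c z : ℝ), 0 ≤ A → 0 ≤ A' → A ≤ (1 + K * |y - r|) * A' → 0 ≤ B → 0 ≤ B' →
        0 ≤ c → c ≤ ρ → z - r = c * (y - r) →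
        B ≤ Real.exp (K * |z - r| / (1 - ρ)) * B' →
        0 ≤ A * B ∧ 0 ≤ A' * B' ∧ A * B ≤ Real.exp (K * |y - r| / (1 - ρ)) * (A' * B') := by
      intro A A' B B' c z hA hA' hAA hB hB' hc0 hc hz hBB
      refine ⟨mul_nonneg hA hB, mul_nonneg hA' hB', ?_⟩
      have e1 : |z - r| = c * |y - r| := by
        rw [hz, abs_mul, abs_of_nonneg hc0]
      rw [e1] at hBB
      have h1 := step_exp K ρ c |y - r| hK hρ1 hc (abs_nonneg _)
      have h2 : A * B ≤ ((1 + K * |y - r|) * A') * (Real.exp (K * (c * |y - r|) / (1 - ρ)) * B') :=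
        mul_le_mul hAA hBB hB (by positivity)
      refine h2.trans ?_
      have h3 : ((1 + K * |y - r|) * A') * (Real.exp (K * (c * |y - r|) / (1 - ρ)) * B')
          = ((1 + K * |y - r|) * Real.exp (K * (c * |y - r|) / (1 - ρ))) * (A' * B') := by ring
      rw [h3]
      exact mul_le_mul_of_nonneg_right h1 (mul_nonneg hA' hB')
    simp only [bb, mm]
    split_ifs with h
    · obtain ⟨c, hc0, hc, hz⟩ := hG0 y hy1 hy2
      obtain ⟨s1, s2⟩ := stay m M r y _ c hc0 (by linarith) hr1 hr2 hy1 hy2 hz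
      obtain ⟨i1, i2, i3⟩ := ih k (G0 l g y) h s1 s2
      exact step _ _ _ _ c _ (hpos0 r hr1) (hpos0 y hy1) (hP0 y hy1 hy2) i1 i2 hc0 hc hz i3
    · obtain ⟨c, hc0, hc, hz⟩ := hG1 y hy1 hy2
      obtain ⟨s1, s2⟩ := stay m M r y _ c hc0 (by linarith) hr1 hr2 hy1 hy2 hz
      have hk' : k - 2 ^ n < 2 ^ n := by
        rw [pow_succ] at hk
        omega
      obtain ⟨i1, i2, i3⟩ := ih (k - 2 ^ n) (G1 g q y) hk' s1 s2
      rw [hsum]
      exact step _ _ _ _ c _ (hpos1 r hr1) (hpos1 y hy1) (hP1 y hy1 hy2) i1 i2 hc0 hc hz i3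

end CmpAux

open CmpAux in
theorem t_CMP : S_CMP := by
  intro l g q hT hl hgq hrr
  obtain ⟨_, hg, _, _, _⟩ := hT
  obtain ⟨r, hr⟩ : ∃ r : ℝ, r = q - g := ⟨_, rfl⟩
  obtain ⟨m, hmdef⟩ : ∃ m : ℝ, m = min 0 r := ⟨_, rfl⟩
  obtain ⟨M, hMdef⟩ : ∃ M : ℝ, M = max 0 r := ⟨_, rfl⟩
  rw [← hr] at hrr
  have hr1 : -1 < r := by rw [hr]; linarith
  have hm : -1 < m := by rw [hmdef]; exact lt_min (by norm_num) hr1
  have hm0 : m ≤ 0 := by rw [hmdef]; exact min_le_left _ _
  have hmr : m ≤ r := by rw [hmdef]; exact min_le_right _ _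
  have hM0 : 0 ≤ M := by rw [hMdef]; exact le_max_left _ _
  have hMr : r ≤ M := by rw [hMdef]; exact le_max_right _ _
  have hl1 : l - 1 ≠ 0 := by
    have : 0 < l - 1 := by linarith
    exact this.ne'
  have hlr : g - l = r * (l - 1) := by
    rw [← hrr]
    field_simp
  have hq : q = r + g := by linarith
  have hmg : 0 < m + g := by linarith
  have hρ0 : 0 ≤ max (1 / l) ((g - 1) / (m + g)) := le_max_of_le_left (by positivity)
  have hρ1 : max (1 / l) ((g - 1) / (m + g)) < 1 := by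
    apply max_lt
    · rw [div_lt_one (by linarith)]
      exact hl
    · rw [div_lt_one hmg]
      linarith
  have hK : 0 ≤ 1 / (m + 1) + 1 / (g - 1) := by
    have h1 : 0 < m + 1 := by linarith
    have h2 : 0 < g - 1 := by linarith
    positivity
  have hmain := main l g q r (max (1 / l) ((g - 1) / (m + g))) (1 / (m + 1) + 1 / (g - 1)) m M
    hρ0 hρ1 hK hmr hMr hm hg ?_ ?_ ?_ ?_
  · refine ⟨Real.exp ((1 / (m + 1) + 1 / (g - 1)) * |0 - r| /
      (1 - max (1 / l) ((g - 1) / (m + g)))), Real.exp_pos _, fun n k hk => ?_⟩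
    rw [← hr]
    exact (hmain n k 0 hk hm0 hM0).2.2
  · intro y hy1 hy2
    refine ⟨1 / l, by positivity, le_max_left _ _, ?_⟩
    unfold G0
    have hl0 : l ≠ 0 := by
      have : 0 < l := by linarith
      exact this.ne'
    field_simp
    linarith
  · intro y hy1 hy2
    have hyg : 0 < y + g := by linarith
    refine ⟨(g - 1) / (y + g), div_nonneg (by linarith) hyg.le, le_max_of_le_right ?_, ?_⟩
    · apply div_le_div_of_nonneg_left (by linarith) hmg (by linarith)
    · unfold G1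
      rw [hq]
      field_simp
      ring
  · intro y hy1 hy2
    have hyg : 0 < y + g := by linarith
    have hy0 : 0 < y + 1 := by linarith
    have hrg : 0 < r + g := by linarith
    have hm1 : 0 < m + 1 := by linarith
    have hg1 : 0 < g - 1 := by linarith
    unfold P0
    have e1 : (r + 1) / (r + g) = (1 + (g - 1) / ((r + g) * (y + 1)) * (r - y)) * ((y + 1) / (y + g)) := by
      field_simp
      ring
    rw [e1]
    apply mul_le_mul_of_nonneg_right _ (by positivity)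
    have e2 : (g - 1) / ((r + g) * (y + 1)) ≤ 1 / (m + 1) := by
      rw [div_le_div_iff₀ (by positivity) hm1]
      have : (g - 1) * (m + 1) ≤ (r + g) * (y + 1) :=
        mul_le_mul (by linarith) (by linarith) hm1.le hrg.le
      linarith
    have e3 : 0 ≤ (g - 1) / ((r + g) * (y + 1)) := by positivity
    have e4 : r - y ≤ |y - r| := by
      rw [abs_sub_comm]
      exact le_abs_self _
    have e5 : (g - 1) / ((r + g) * (y + 1)) * (r - y) ≤ (g - 1) / ((r + g) * (y + 1)) * |y - r| :=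
      mul_le_mul_of_nonneg_left e4 e3
    have e6 : (g - 1) / ((r + g) * (y + 1)) * |y - r| ≤ 1 / (m + 1) * |y - r| :=
      mul_le_mul_of_nonneg_right e2 (abs_nonneg _)
    have e7 : 0 ≤ 1 / (g - 1) * |y - r| := by positivity
    linarith
  · intro y hy1 hy2
    have hyg : 0 < y + g := by linarith
    have hrg : 0 < r + g := by linarith
    have hm1 : 0 < m + 1 := by linarith
    have hg1 : 0 < g - 1 := by linarith
    unfold P1
    have e1 : (g - 1) / (r + g) = (1 + 1 / (r + g) * (y - r)) * ((g - 1) / (y + g)) := by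
      field_simp
      ring
    rw [e1]
    apply mul_le_mul_of_nonneg_right _ (by positivity)
    have e2 : 1 / (r + g) ≤ 1 / (g - 1) := by
      apply one_div_le_one_div_of_le hg1
      linarith
    have e3 : 0 ≤ 1 / (r + g) := by positivity
    have e5 : 1 / (r + g) * (y - r) ≤ 1 / (r + g) * |y - r| :=
      mul_le_mul_of_nonneg_left (le_abs_self _) e3
    have e6 : 1 / (r + g) * |y - r| ≤ 1 / (g - 1) * |y - r| :=
      mul_le_mul_of_nonneg_right e2 (abs_nonneg _)
    have e7 : 0 ≤ 1 / (m + 1) * |y - r| := by positivity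
    linarith

end Pool.Agent.R979.MD
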