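import Pool.Agent.R979.MD.Stm

set_option autoImplicit false

open MeasureTheory Set Filter Topology
open scoped ENNReal

/-!
# EN: the energy is bounded by a dyadic sum
-/

namespace Pool.Agent.R979.MD

theorem en_set (r : ℝ) : MeasurableSet {p : ℝ × ℝ | |p.1 - p.2| ≤ r} :=
  (isClosed_le (by fun_prop) continuous_const).measurableSet

theorem en_meas (ω : Measure ℝ) [IsFiniteMeasure ω] (r : ℝ) :
    Measurable fun x => ω {y | |x - y| ≤ r} :=
  measurable_measure_prodMk_left (en_set r)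

theorem en_set1 (x r : ℝ) : MeasurableSet {y : ℝ | |x - y| ≤ r} :=
  (isClosed_le (by fun_prop) continuous_const).measurableSet

/-- the mixed term -/
theorem en_two (ω : Measure ℝ) [IsFiniteMeasure ω] (r r' : ℝ) (h : r' ≤ r) :
    ∫⁻ x, ω {y | |x - y| ≤ r} * ω {y | |x - y| ≤ r'} ≤
      ENNReal.ofReal (2 * r') * ∫⁻ z, ω {y | |z - y| ≤ 2 * r} ∂ω := by
  have e1 : ∀ x : ℝ, ω {y | |x - y| ≤ r} * ω {y | |x - y| ≤ r'} =
      ∫⁻ z, ω {y | |x - y| ≤ r} *
        {p : ℝ × ℝ | |p.1 - p.2| ≤ r'}.indicator (fun _ => (1 : ℝ≥0∞)) (x, z) ∂ω := by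
    intro x
    rw [lintegral_const_mul]
    · congr 1
      rw [← lintegral_indicator_one (en_set1 x r')]
      rfl
    · exact (measurable_const.indicator (en_set r')).comp measurable_prodMk_left
  simp_rw [e1]
  rw [lintegral_lintegral_swap]
  swap
  · apply Measurable.aemeasurable
    apply Measurable.mul
    · exact (en_meas ω r).comp measurable_fst
    · exact (measurable_const.indicator (en_set r'))
  rw [← lintegral_const_mul _ (en_meas ω (2 * r))]
  apply lintegral_mono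
  intro z
  have e2 : ∀ x : ℝ, ω {y | |x - y| ≤ r} *
      {p : ℝ × ℝ | |p.1 - p.2| ≤ r'}.indicator (fun _ => (1 : ℝ≥0∞)) (x, z) ≤
      ω {y | |z - y| ≤ 2 * r} * (Icc (z - r') (z + r')).indicator (fun _ => (1 : ℝ≥0∞)) x := by
    intro x
    by_cases hx : |x - z| ≤ r'
    · have h1 : x ∈ Icc (z - r') (z + r') := by
        rw [abs_le] at hx
        exact ⟨by linarith, by linarith⟩
      have h2 : (x, z) ∈ {p : ℝ × ℝ | |p.1 - p.2| ≤ r'} := hx
      rw [indicator_of_mem h1, indicator_of_mem h2, mul_one, mul_one]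
      apply measure_mono
      intro y hy
      have hy' : |x - y| ≤ r := hy
      show |z - y| ≤ 2 * r
      calc |z - y| = |(z - x) + (x - y)| := by ring_nf
        _ ≤ |z - x| + |x - y| := abs_add_le _ _
        _ ≤ r' + r := by
            rw [abs_sub_comm z x]
            exact add_le_add hx hy'
        _ ≤ 2 * r := by linarith
    · have h2 : (x, z) ∉ {p : ℝ × ℝ | |p.1 - p.2| ≤ r'} := hx
      rw [indicator_of_notMem h2, mul_zero]
      exact zero_le
  calc ∫⁻ x, ω {y | |x - y| ≤ r} *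
      {p : ℝ × ℝ | |p.1 - p.2| ≤ r'}.indicator (fun _ => (1 : ℝ≥0∞)) (x, z) ≤
      ∫⁻ x, ω {y | |z - y| ≤ 2 * r} *
        (Icc (z - r') (z + r')).indicator (fun _ => (1 : ℝ≥0∞)) x := lintegral_mono e2
    _ = ω {y | |z - y| ≤ 2 * r} * ENNReal.ofReal (2 * r') := by
        rw [lintegral_const_mul _ (measurable_const.indicator measurableSet_Icc),
          lintegral_indicator_const measurableSet_Icc, one_mul, Real.volume_Icc]
        congr 2
        ring
    _ = _ := mul_comm _ _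

/-- the dyadic index -/
noncomputable def enf (n : ℕ) (x : ℝ) : ℤ := ⌊(2 : ℝ) ^ n * x⌋

theorem enf_meas (n : ℕ) : Measurable (enf n) :=
  Int.measurable_floor.comp (measurable_const.mul measurable_id)

theorem enf_dy (n : ℕ) (x : ℝ) : dy n x = enf n ⁻¹' {enf n x} := by
  ext y
  have h2 : (0 : ℝ) < 2 ^ n := by positivity
  simp only [dy, mem_Ico, mem_preimage, mem_singleton_iff]
  show _ ↔ ⌊(2 : ℝ) ^ n * y⌋ = enf n x
  rw [Int.floor_eq_iff, div_le_iff₀ h2, lt_div_iff₀ h2, mul_comm y]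
  rfl

theorem en_three (ω : Measure ℝ) [IsFiniteMeasure ω] (n : ℕ) :
    ∫⁻ z, ω {y | |z - y| ≤ 2 * (1 / 2 : ℝ) ^ n} ∂ω ≤ 10 * ∫⁻ x, ω (dy n x) ∂ω := by
  set w : ℤ → ℝ≥0∞ := fun k => ω (enf n ⁻¹' {k}) with hw
  have hmap : ∀ k : ℤ, (ω.map (enf n)) {k} = w k := fun k =>
    Measure.map_apply (enf_meas n) (measurableSet_singleton k)
  have hint : ∀ j : ℤ, ∫⁻ z, w (enf n z + j) ∂ω = ∑' k : ℤ, w (k + j) * w k := by
    intro j
    have h1 : ∫⁻ z, w (enf n z + j) ∂ω = ∫⁻ k, w (k + j) ∂(ω.map (enf n)) := by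
      rw [lintegral_map (measurable_from_top) (enf_meas n)]
    rw [h1, lintegral_countable']
    simp_rw [hmap]
  have hsq : ∀ j : ℤ, ∑' k : ℤ, w (k + j) * w k ≤ 2 * ∑' k : ℤ, w k * w k := by
    intro j
    calc ∑' k : ℤ, w (k + j) * w k ≤ ∑' k : ℤ, (w (k + j) * w (k + j) + w k * w k) := by
          apply ENNReal.tsum_le_tsum
          intro k
          rcases le_total (w (k + j)) (w k) with h | h
          · exact (mul_le_mul_left h _).trans le_add_self
          · exact (mul_le_mul_right h _).trans le_self_add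
      _ = ∑' k : ℤ, w (k + j) * w (k + j) + ∑' k : ℤ, w k * w k := ENNReal.tsum_add
      _ = _ := by
          have : ∑' k : ℤ, w (k + j) * w (k + j) = ∑' k : ℤ, w k * w k :=
            (Equiv.addRight j).tsum_eq (fun k => w k * w k)
          rw [this, two_mul]
  have hdy : ∫⁻ x, ω (dy n x) ∂ω = ∑' k : ℤ, w k * w k := by
    have h1 : ∀ x, ω (dy n x) = w (enf n x + 0) := by
      intro x
      rw [enf_dy, add_zero]
    simp_rw [h1]
    rw [hint 0]
    simp only [add_zero]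
  have hcov : ∀ z, ω {y | |z - y| ≤ 2 * (1 / 2 : ℝ) ^ n} ≤
      ∑ j ∈ Finset.Icc (-2 : ℤ) 2, w (enf n z + j) := by
    intro z
    have h1 : {y | |z - y| ≤ 2 * (1 / 2 : ℝ) ^ n} ⊆
        ⋃ j ∈ Finset.Icc (-2 : ℤ) 2, enf n ⁻¹' {enf n z + j} := by
      intro y hy
      have hy' : |z - y| ≤ 2 * (1 / 2 : ℝ) ^ n := hy
      have h2 : (0 : ℝ) < 2 ^ n := by positivity
      have h3 : |(2 : ℝ) ^ n * z - 2 ^ n * y| ≤ 2 := by
        rw [← mul_sub, abs_mul, abs_of_pos h2]
        calc (2 : ℝ) ^ n * |z - y| ≤ 2 ^ n * (2 * (1 / 2 : ℝ) ^ n) := by gcongr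
          _ = 2 := by
              rw [one_div, inv_pow]
              field_simp
      rw [abs_le] at h3
      have f1 := Int.floor_le ((2 : ℝ) ^ n * z)
      have f2 := Int.lt_floor_add_one ((2 : ℝ) ^ n * z)
      have f3 := Int.floor_le ((2 : ℝ) ^ n * y)
      have f4 := Int.lt_floor_add_one ((2 : ℝ) ^ n * y)
      have g1 : enf n y - enf n z < 3 := by
        have : ((enf n y - enf n z : ℤ) : ℝ) < 3 := by
          push_cast
          show ((⌊(2 : ℝ) ^ n * y⌋ : ℤ) : ℝ) - ((⌊(2 : ℝ) ^ n * z⌋ : ℤ) : ℝ) < 3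
          linarith [h3.1, h3.2]
        exact_mod_cast this
      have g2 : -3 < enf n y - enf n z := by
        have : (-3 : ℝ) < ((enf n y - enf n z : ℤ) : ℝ) := by
          push_cast
          show (-3 : ℝ) < ((⌊(2 : ℝ) ^ n * y⌋ : ℤ) : ℝ) - ((⌊(2 : ℝ) ^ n * z⌋ : ℤ) : ℝ)
          linarith [h3.1, h3.2]
        exact_mod_cast this
      rw [mem_iUnion₂]
      refine ⟨enf n y - enf n z, Finset.mem_Icc.2 ⟨by omega, by omega⟩, ?_⟩
      simp
    exact (measure_mono h1).trans (measure_biUnion_finset_le _ _)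
  calc ∫⁻ z, ω {y | |z - y| ≤ 2 * (1 / 2 : ℝ) ^ n} ∂ω ≤
      ∫⁻ z, ∑ j ∈ Finset.Icc (-2 : ℤ) 2, w (enf n z + j) ∂ω := lintegral_mono hcov
    _ = ∑ j ∈ Finset.Icc (-2 : ℤ) 2, ∫⁻ z, w (enf n z + j) ∂ω := by
        rw [lintegral_finsetSum]
        intro j _
        exact (measurable_from_top (f := fun k : ℤ => w (k + j))).comp (enf_meas n)
    _ ≤ ∑ j ∈ Finset.Icc (-2 : ℤ) 2, 2 * ∑' k : ℤ, w k * w k := by
        apply Finset.sum_le_sum
        intro j _
        rw [hint]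
        exact hsq j
    _ = 10 * ∫⁻ x, ω (dy n x) ∂ω := by
        rw [hdy, Finset.sum_const, nsmul_eq_mul]
        have : (Finset.Icc (-2 : ℤ) 2).card = 5 := rfl
        rw [this, ← mul_assoc]
        norm_num

/-- the bound of the kernel -/
theorem en_one (τ : ℝ) (h1 : τ < 1) (x y : ℝ) (hxy : |x - y| ≤ 1) :
    kern τ x y ≤ ENNReal.ofReal ((2 : ℝ) ^ (1 - τ)) * ∑' n : ℕ,
      ENNReal.ofReal ((2 : ℝ) ^ (1 - τ)) ^ n *
        {y | |x - y| ≤ (1 / 2 : ℝ) ^ n}.indicator (fun _ => (1 : ℝ≥0∞)) y := by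
  set α : ℝ := (2 : ℝ) ^ (1 - τ) with hα
  have hα1 : 1 ≤ α := Real.one_le_rpow (by norm_num) (by linarith)
  have hα0 : 0 < α := by linarith
  have hA1 : (1 : ℝ≥0∞) ≤ ENNReal.ofReal α := by
    rw [← ENNReal.ofReal_one]
    exact ENNReal.ofReal_le_ofReal hα1
  rcases (abs_nonneg (x - y)).eq_or_lt with h0 | h0
  · have e1 : ∑' n : ℕ, ENNReal.ofReal α ^ n *
        {y | |x - y| ≤ (1 / 2 : ℝ) ^ n}.indicator (fun _ => (1 : ℝ≥0∞)) y = ⊤ := by
      rw [eq_top_iff]
      calc (⊤ : ℝ≥0∞) = ∑' _ : ℕ, (1 : ℝ≥0∞) := (ENNReal.tsum_const_eq_top_of_ne_zero one_ne_zero).symm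
        _ ≤ _ := by
          apply ENNReal.tsum_le_tsum
          intro n
          have : y ∈ {y | |x - y| ≤ (1 / 2 : ℝ) ^ n} := by
            show |x - y| ≤ _
            rw [← h0]
            positivity
          rw [indicator_of_mem this, mul_one]
          exact one_le_pow_of_one_le' hA1 n
    rw [e1, ENNReal.mul_top (ne_of_gt (lt_of_lt_of_le one_pos hA1))]
    exact le_top
  · have hex : ∃ n : ℕ, (1 / 2 : ℝ) ^ (n + 1) < |x - y| := by
      obtain ⟨n, hn⟩ := exists_pow_lt_of_lt_one h0 (show (1 / 2 : ℝ) < 1 by norm_num)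
      refine ⟨n, lt_of_le_of_lt ?_ hn⟩
      rw [pow_succ]
      have : (0 : ℝ) < (1 / 2) ^ n := by positivity
      linarith
    classical
    set n := Nat.find hex with hn
    have hn1 : (1 / 2 : ℝ) ^ (n + 1) < |x - y| := Nat.find_spec hex
    have hn2 : |x - y| ≤ (1 / 2 : ℝ) ^ n := by
      rcases Nat.eq_zero_or_pos n with h3 | h3
      · rw [h3, pow_zero]; exact hxy
      · have h4 := Nat.find_min hex (Nat.sub_lt h3 one_pos)
        have h5 : Nat.find hex - 1 + 1 = n := Nat.sub_add_cancel h3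
        rw [not_lt, h5] at h4
        exact h4
    have hterm : ENNReal.ofReal α ^ n ≤ ∑' n : ℕ, ENNReal.ofReal α ^ n *
        {y | |x - y| ≤ (1 / 2 : ℝ) ^ n}.indicator (fun _ => (1 : ℝ≥0∞)) y := by
      refine le_trans (le_of_eq ?_) (ENNReal.le_tsum n)
      have : y ∈ {y | |x - y| ≤ (1 / 2 : ℝ) ^ n} := hn2
      rw [indicator_of_mem this, mul_one]
    refine le_trans ?_ (mul_le_mul_right hterm _)
    rw [kern, ENNReal.ofReal_rpow_of_pos h0, ← pow_succ', ← ENNReal.ofReal_pow hα0.le]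
    apply ENNReal.ofReal_le_ofReal
    calc |x - y| ^ (τ - 1) ≤ ((1 / 2 : ℝ) ^ (n + 1)) ^ (τ - 1) :=
          Real.rpow_le_rpow_of_nonpos (by positivity) hn1.le (by linarith)
      _ = α ^ (n + 1) := by
          rw [hα, one_div, inv_pow, Real.inv_rpow (by positivity), ← Real.rpow_natCast,
            ← Real.rpow_mul (by norm_num), ← Real.rpow_neg (by norm_num), ← Real.rpow_natCast,
            ← Real.rpow_mul (by norm_num)]
          congr 1
          push_cast
          ring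

theorem en_U (τ : ℝ) (h1 : τ < 1) (ω : Measure ℝ) [IsFiniteMeasure ω] (x : ℝ)
    (hx : x ∈ Icc (0 : ℝ) 1) :
    ∫⁻ y in Icc (0 : ℝ) 1, kern τ x y ∂ω ≤ ENNReal.ofReal ((2 : ℝ) ^ (1 - τ)) * ∑' n : ℕ,
      ENNReal.ofReal ((2 : ℝ) ^ (1 - τ)) ^ n * ω {y | |x - y| ≤ (1 / 2 : ℝ) ^ n} := by
  calc ∫⁻ y in Icc (0 : ℝ) 1, kern τ x y ∂ω ≤
      ∫⁻ y in Icc (0 : ℝ) 1, (ENNReal.ofReal ((2 : ℝ) ^ (1 - τ)) * ∑' n : ℕ,
        ENNReal.ofReal ((2 : ℝ) ^ (1 - τ)) ^ n *
        {y | |x - y| ≤ (1 / 2 : ℝ) ^ n}.indicator (fun _ => (1 : ℝ≥0∞)) y) ∂ω := by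
        apply setLIntegral_mono' measurableSet_Icc
        intro y hy
        apply en_one τ h1
        rw [abs_le]
        constructor <;> linarith [hx.1, hx.2, hy.1, hy.2]
    _ ≤ ∫⁻ y, (ENNReal.ofReal ((2 : ℝ) ^ (1 - τ)) * ∑' n : ℕ,
        ENNReal.ofReal ((2 : ℝ) ^ (1 - τ)) ^ n *
        {y | |x - y| ≤ (1 / 2 : ℝ) ^ n}.indicator (fun _ => (1 : ℝ≥0∞)) y) ∂ω :=
        setLIntegral_le_lintegral _ _
    _ = _ := by
        have hm : ∀ n : ℕ, Measurable fun y => ENNReal.ofReal ((2 : ℝ) ^ (1 - τ)) ^ n *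
            {y | |x - y| ≤ (1 / 2 : ℝ) ^ n}.indicator (fun _ => (1 : ℝ≥0∞)) y := fun n =>
          measurable_const.mul (measurable_const.indicator (en_set1 x _))
        rw [lintegral_const_mul _ (Measurable.tsum hm),
          lintegral_tsum (fun n => (hm n).aemeasurable)]
        congr 1
        apply tsum_congr
        intro n
        rw [lintegral_const_mul _ (measurable_const.indicator (en_set1 x _)),
          lintegral_indicator_const (en_set1 x _), one_mul]

/-- the geometric tail -/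
theorem en_tail (ρ : ℝ≥0∞) (n : ℕ) :
    ∑' m : ℕ, (if n ≤ m then ρ ^ m else 0) = ρ ^ n * (1 - ρ)⁻¹ := by
  have h := Function.Injective.tsum_eq (g := fun j : ℕ => n + j) (add_right_injective n)
    (f := fun m : ℕ => if n ≤ m then ρ ^ m else 0) (by
      intro m hm
      have h1 : n ≤ m := by
        by_contra h2
        apply hm
        simp [h2]
      exact ⟨m - n, by simp; omega⟩)
  rw [← h, ← ENNReal.tsum_geometric, ← ENNReal.tsum_mul_left]
  apply tsum_congr
  intro j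
  simp [pow_add]

theorem en_double (A ρ : ℝ≥0∞) (I : ℕ → ℕ → ℝ≥0∞) (V K : ℕ → ℝ≥0∞)
    (hsym : ∀ n m, I n m = I m n) (hI : ∀ n m, n ≤ m → I n m ≤ K m * V n)
    (hK : ∀ m, A ^ m * K m = 2 * ρ ^ m) :
    ∑' n : ℕ, ∑' m : ℕ, A ^ n * A ^ m * I n m ≤
      4 * (1 - ρ)⁻¹ * ∑' n : ℕ, (A ^ n * ρ ^ n) * V n := by
  set B : ℕ → ℕ → ℝ≥0∞ := fun n m => if n ≤ m then A ^ n * V n * 2 * ρ ^ m else 0 with hB
  have h1 : ∀ n m, A ^ n * A ^ m * I n m ≤ B n m + B m n := by
    have key : ∀ n m, n ≤ m → A ^ n * A ^ m * I n m ≤ B n m := by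
      intro n m hnm
      rw [hB]
      simp only [hnm, if_true]
      calc A ^ n * A ^ m * I n m ≤ A ^ n * A ^ m * (K m * V n) := mul_le_mul_right (hI n m hnm) _
        _ = A ^ n * V n * (A ^ m * K m) := by ring
        _ = A ^ n * V n * 2 * ρ ^ m := by rw [hK]; ring
    intro n m
    rcases le_total n m with hnm | hnm
    · exact (key n m hnm).trans le_self_add
    · have := key m n hnm
      rw [mul_comm (A ^ m), hsym m n] at this
      exact this.trans le_add_self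
  have h2 : ∀ n, ∑' m : ℕ, B n m = 2 * (1 - ρ)⁻¹ * ((A ^ n * ρ ^ n) * V n) := by
    intro n
    have e1 : ∀ m, B n m = A ^ n * V n * 2 * (if n ≤ m then ρ ^ m else 0) := by
      intro m
      rw [hB]
      simp only [mul_ite, mul_zero]
    simp_rw [e1]
    rw [ENNReal.tsum_mul_left, en_tail]
    ring
  calc ∑' n : ℕ, ∑' m : ℕ, A ^ n * A ^ m * I n m ≤ ∑' n : ℕ, ∑' m : ℕ, (B n m + B m n) :=
        ENNReal.tsum_le_tsum fun n => ENNReal.tsum_le_tsum fun m => h1 n m
    _ = ∑' n : ℕ, ∑' m : ℕ, B n m + ∑' n : ℕ, ∑' m : ℕ, B m n := by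
        rw [← ENNReal.tsum_add]
        apply tsum_congr
        intro n
        rw [ENNReal.tsum_add]
    _ = ∑' n : ℕ, ∑' m : ℕ, B n m + ∑' n : ℕ, ∑' m : ℕ, B n m := by
        rw [ENNReal.tsum_comm (f := fun n m => B m n)]
    _ = 4 * (1 - ρ)⁻¹ * ∑' n : ℕ, (A ^ n * ρ ^ n) * V n := by
        simp_rw [h2]
        rw [ENNReal.tsum_mul_left, ← two_mul, ← mul_assoc, ← mul_assoc]
        norm_num

theorem t_EN : S_EN := by
  intro s hs0 hs1
  obtain ⟨τ, hτ⟩ : ∃ τ : ℝ, τ = (1 - s) / 2 := ⟨_, rfl⟩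
  have hτ0 : 0 < τ := by rw [hτ]; linarith
  have hτ1 : τ < 1 := by rw [hτ]; linarith
  rw [← hτ]
  obtain ⟨A, hA⟩ : ∃ A : ℝ≥0∞, A = ENNReal.ofReal ((2 : ℝ) ^ (1 - τ)) := ⟨_, rfl⟩
  obtain ⟨ρ, hρ⟩ : ∃ ρ : ℝ≥0∞, ρ = ENNReal.ofReal ((2 : ℝ) ^ (-τ)) := ⟨_, rfl⟩
  have hρ1 : ρ < 1 := by
    rw [hρ, ENNReal.ofReal_lt_one]
    exact Real.rpow_lt_one_of_one_lt_of_neg (by norm_num) (by linarith)
  have hρ2 : (1 - ρ)⁻¹ ≠ ⊤ := by
    rw [ENNReal.inv_ne_top]
    exact (tsub_pos_of_lt hρ1).ne'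
  refine ⟨A ^ 2 * (4 * (1 - ρ)⁻¹ * 10), ?_, ?_⟩
  · apply ENNReal.mul_ne_top
    · exact ENNReal.pow_ne_top (by rw [hA]; exact ENNReal.ofReal_ne_top)
    · exact ENNReal.mul_ne_top (ENNReal.mul_ne_top (by norm_num) hρ2) (by norm_num)
  · intro ω hω
    have hAρ : ∀ n : ℕ, A ^ n * ρ ^ n = ENNReal.ofReal (Real.exp (n * (s * Real.log 2))) := by
      intro n
      have e1 : (0 : ℝ) ≤ (2 : ℝ) ^ (1 - τ) := by positivity
      rw [← mul_pow, hA, hρ, ← ENNReal.ofReal_mul e1, ← Real.rpow_add (by norm_num),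
        ← ENNReal.ofReal_pow (by positivity), ← Real.rpow_natCast, ← Real.rpow_mul (by norm_num),
        Real.rpow_def_of_pos (by norm_num)]
      congr 2
      rw [hτ]
      ring
    have hK : ∀ m : ℕ, A ^ m * ENNReal.ofReal (2 * (1 / 2 : ℝ) ^ m) = 2 * ρ ^ m := by
      intro m
      have e1 : ρ = A * ENNReal.ofReal (1 / 2) := by
        have e2 : (0 : ℝ) ≤ (2 : ℝ) ^ (1 - τ) := by positivity
        rw [hA, hρ, ← ENNReal.ofReal_mul e2]
        congr 1
        rw [sub_eq_add_neg, Real.rpow_add (by norm_num), Real.rpow_one]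
        ring
      rw [e1, ENNReal.ofReal_mul (by norm_num), ENNReal.ofReal_pow (by norm_num), mul_pow]
      have e3 : ENNReal.ofReal 2 = 2 := by norm_num
      rw [e3]
      ring
    set W : ℕ → ℝ → ℝ≥0∞ := fun n x => ω {y | |x - y| ≤ (1 / 2 : ℝ) ^ n} with hW
    have hWm : ∀ n, Measurable (W n) := fun n => en_meas ω _
    have hdouble := en_double A ρ (fun n m => ∫⁻ x, W n x * W m x)
      (fun n => ∫⁻ z, ω {y | |z - y| ≤ 2 * (1 / 2 : ℝ) ^ n} ∂ω)
      (fun m => ENNReal.ofReal (2 * (1 / 2 : ℝ) ^ m))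
      (by
        intro n m
        apply lintegral_congr
        intro x
        exact mul_comm _ _)
      (by
        intro n m hnm
        exact en_two ω _ _ (pow_le_pow_of_le_one (by norm_num) (by norm_num) hnm))
      hK
    calc energy τ ω ≤ ∫⁻ x in Icc (0 : ℝ) 1, (A * ∑' n : ℕ, A ^ n * W n x) ^ 2 := by
          apply setLIntegral_mono' measurableSet_Icc
          intro x hx
          rw [hA]
          exact pow_le_pow_left' (en_U τ hτ1 ω x hx) 2
      _ ≤ ∫⁻ x, (A * ∑' n : ℕ, A ^ n * W n x) ^ 2 := setLIntegral_le_lintegral _ _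
      _ = A ^ 2 * ∫⁻ x, ∑' n : ℕ, ∑' m : ℕ, (A ^ n * A ^ m) * (W n x * W m x) := by
          rw [← lintegral_const_mul]
          · apply lintegral_congr
            intro x
            rw [mul_pow, sq (∑' n : ℕ, A ^ n * W n x), ← ENNReal.tsum_mul_right]
            congr 1
            apply tsum_congr
            intro n
            rw [← ENNReal.tsum_mul_left]
            apply tsum_congr
            intro m
            ring
          · exact Measurable.tsum fun n => Measurable.tsum fun m =>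
              measurable_const.mul ((hWm n).mul (hWm m))
      _ = A ^ 2 * ∑' n : ℕ, ∑' m : ℕ, A ^ n * A ^ m * ∫⁻ x, W n x * W m x := by
          congr 1
          have hm1 : ∀ n m, Measurable (fun x => A ^ n * A ^ m * (W n x * W m x)) :=
            fun n m => measurable_const.mul ((hWm n).mul (hWm m))
          have hm2 : ∀ n, Measurable (fun x => ∑' m : ℕ, A ^ n * A ^ m * (W n x * W m x)) :=
            fun n => Measurable.tsum (hm1 n)
          rw [lintegral_tsum (fun n => (hm2 n).aemeasurable)]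
          apply tsum_congr
          intro n
          rw [lintegral_tsum (fun m => (hm1 n m).aemeasurable)]
          apply tsum_congr
          intro m
          exact lintegral_const_mul _ ((hWm n).mul (hWm m))
      _ ≤ A ^ 2 * (4 * (1 - ρ)⁻¹ * ∑' n : ℕ, (A ^ n * ρ ^ n) *
            ∫⁻ z, ω {y | |z - y| ≤ 2 * (1 / 2 : ℝ) ^ n} ∂ω) := mul_le_mul_right hdouble _
      _ ≤ A ^ 2 * (4 * (1 - ρ)⁻¹ * ∑' n : ℕ, 10 * (ENNReal.ofReal (Real.exp (n * (s * Real.log 2))) *
            ∫⁻ x, ω (dy n x) ∂ω)) := by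
          apply mul_le_mul_right
          apply mul_le_mul_right
          apply ENNReal.tsum_le_tsum
          intro n
          rw [hAρ]
          calc _ ≤ ENNReal.ofReal (Real.exp (n * (s * Real.log 2))) *
                (10 * ∫⁻ x, ω (dy n x) ∂ω) := mul_le_mul_right (en_three ω n) _
            _ = _ := by ring
      _ = _ := by
          rw [ENNReal.tsum_mul_left]
          ring

end Pool.Agent.R979.MD
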