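import Pool.Agent.R979.MD.Stm

set_option autoImplicit false

open MeasureTheory Set Filter Topology

namespace Pool.Agent.R979.MD

theorem mu_II (hT : S_TREE) {l g q : ℝ} (h : Trap l g q) {f : ℝ → ℝ} (hf : IsDeRham l g q f)
    (μ : Measure ℝ) [IsProbabilityMeasure μ]
    (hμ : ∀ x ∈ Icc (0 : ℝ) 1, μ (Ico 0 x) = ENNReal.ofReal (f x)) (n k : ℕ) (hk : k < 2 ^ n) :
    μ.real (II n k) = mm l g q n 0 k := by
  have h2 : (0 : ℝ) < 2 ^ n := by positivity
  have hk' : (k : ℝ) + 1 ≤ 2 ^ n := by exact_mod_cast hk
  have ha0 : 0 ≤ (k : ℝ) / 2 ^ n := by positivity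
  have hab : (k : ℝ) / 2 ^ n ≤ ((k : ℝ) + 1) / 2 ^ n := by gcongr; linarith
  have hb1 : ((k : ℝ) + 1) / 2 ^ n ≤ 1 := by rw [div_le_one h2]; exact hk'
  have hA : (k : ℝ) / 2 ^ n ∈ Icc (0 : ℝ) 1 := ⟨ha0, hab.trans hb1⟩
  have hB : ((k : ℝ) + 1) / 2 ^ n ∈ Icc (0 : ℝ) 1 := ⟨ha0.trans hab, hb1⟩
  have hfa : 0 ≤ f ((k : ℝ) / 2 ^ n) := by
    have := hf.1.monotoneOn (show (0 : ℝ) ∈ Icc (0 : ℝ) 1 by simp) hA ha0
    rw [hf.2.2.1] at this; exact this
  have hfb : f ((k : ℝ) / 2 ^ n) ≤ f (((k : ℝ) + 1) / 2 ^ n) := hf.1.monotoneOn hA hB hab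
  have hset : Ico (0 : ℝ) (((k : ℝ) + 1) / 2 ^ n) = Ico 0 ((k : ℝ) / 2 ^ n) ∪ II n k := by
    unfold II; exact (Ico_union_Ico_eq_Ico ha0 hab).symm
  have hdisj : Disjoint (Ico (0 : ℝ) ((k : ℝ) / 2 ^ n)) (II n k) := by
    unfold II
    rw [Set.disjoint_left]
    intro x hx hx'
    exact absurd hx.2 (not_lt.mpr hx'.1)
  have hm : MeasurableSet (II n k) := by unfold II; exact measurableSet_Ico
  have e1 := measureReal_union (μ := μ) hdisj hm
  rw [← hset] at e1
  have e2 : μ.real (Ico 0 (((k : ℝ) + 1) / 2 ^ n)) = f (((k : ℝ) + 1) / 2 ^ n) := by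
    unfold Measure.real; rw [hμ _ hB, ENNReal.toReal_ofReal (hfa.trans hfb)]
  have e3 : μ.real (Ico 0 ((k : ℝ) / 2 ^ n)) = f ((k : ℝ) / 2 ^ n) := by
    unfold Measure.real; rw [hμ _ hA, ENNReal.toReal_ofReal hfa]
  have e4 := hT l g q h f hf n k hk
  linarith

theorem main (hTREE : S_TREE) (hLYAP : S_LYAP) (hTH : S_TH) (hPSI : S_PSI) (hKEPS : S_KEPS)
    (hAE : S_AE) (hCAP : S_CAP) (hPOL : S_POL) (hCMP : S_CMP) (hRW : S_RW) (hBIG : S_BIG)
    (l g q : ℝ) (h : Trap l g q) (f : ℝ → ℝ) (hf : IsDeRham l g q f)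
    (μ : Measure ℝ) [IsProbabilityMeasure μ]
    (hμ : ∀ x ∈ Icc (0 : ℝ) 1, μ (Ico 0 x) = ENNReal.ofReal (f x)) :
    (∀ K : Set ℝ, MeasurableSet K → K ⊆ Icc 0 1 → IsPolar (d0 l g q) K → μ K = 0) ↔
      ¬ (r0 l g = r1 g q ∧ ent (p0 g (r1 g q)) ≤ ent (p0 g 0)) := by
  have hlog : 0 < Real.log 2 := Real.log_pos (by norm_num)
  have hII := mu_II hTREE h hf μ hμ
  have hone : μ (Ico 0 1) = 1 := by rw [hμ 1 (by simp), hf.2.2.2.1]; simp
  have hcompl : μ (Ico 0 1)ᶜ = 0 := (prob_compl_eq_zero_iff measurableSet_Ico).mpr hone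
  obtain ⟨hth0, hth1, hthd, hthn⟩ := hTH l g q h
  have hd : d0 l g q * Real.log 2 = theta0 l g q := by
    unfold d0; field_simp
  have hd0 : 0 ≤ d0 l g q := by unfold d0; positivity
  constructor
  · intro hprop hexc
    -- the exceptional case
    obtain ⟨hr, he⟩ := hexc
    obtain ⟨hl0, hg, hq0, hl1, hqg⟩ := h
    have hl : l ≠ 1 := by
      intro hl
      rw [r0, if_pos hl] at hr
      exact (EReal.coe_ne_top _ hr.symm)
    have hl' : 1 < l := lt_of_le_of_ne hl1 (Ne.symm hl)
    rw [r0, if_neg hl, r1, EReal.coe_eq_coe_iff] at hr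
    have hrr : -1 < q - g := by
      rw [← hr]
      have h1 : (g - l) / (l - 1) = (g - 1) / (l - 1) - 1 := by
        have : l - 1 ≠ 0 := by intro hh; apply hl; linarith
        rw [div_sub_one this]; congr 1; ring
      have h2 : 0 < (g - 1) / (l - 1) := div_pos (by linarith) (by linarith)
      linarith
    have hqg' : g - 1 < q := by linarith
    by_cases hd1 : d0 l g q < 1
    · -- the interesting case
      obtain ⟨haa, hle, hlt, hor⟩ := hthn hl' hqg'
      have haa' : aa l g q = min 0 (q - g) := by unfold aa; rw [hr, min_self]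
      have hbt' : bt l g q = max 0 (q - g) := by unfold bt; rw [hr, max_self]
      have hP0 : p0 g 0 = P0 g 0 := by
        unfold p0 P0; rw [if_neg (by simp)]; simp
      have hPr : p0 g (r1 g q) = P0 g (q - g) := by
        unfold p0 P0 r1; rw [if_neg (EReal.coe_ne_top _), EReal.toReal_coe]
      rw [hP0, hPr] at he
      have hmem : (q - g) ∈ Icc (aa l g q) (bt l g q) := by
        rw [haa', hbt']; exact ⟨min_le_right _ _, le_max_right _ _⟩
      have hmem0 : (0 : ℝ) ∈ Icc (aa l g q) (bt l g q) := by
        rw [haa', hbt']; exact ⟨min_le_left _ _, le_max_left _ _⟩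
      have h1 := hle _ hmem
      have hth : theta0 l g q = ent (P0 g (q - g)) := by
        have key : theta0 l g q = ent (P0 g 0) ∨ theta0 l g q = ent (P0 g (q - g)) := by
          rcases hor with h2 | h2
          · rw [haa'] at h2
            rcases min_choice 0 (q - g) with h3 | h3 <;> rw [h3] at h2
            · exact Or.inl h2
            · exact Or.inr h2
          · rw [hbt'] at h2
            rcases max_choice 0 (q - g) with h3 | h3 <;> rw [h3] at h2
            · exact Or.inl h2
            · exact Or.inr h2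
        rcases key with h2 | h2
        · linarith
        · exact h2
      have hp0 : 0 < P0 g (q - g) := by
        unfold P0; apply div_pos <;> linarith
      have hp1 : P0 g (q - g) < 1 := by
        unfold P0; rw [div_lt_one (by linarith)]; linarith
      have hp2 : P0 g (q - g) ≠ 1 / 2 := by
        intro hp
        have h5 : theta0 l g q = Real.log 2 := by
          rw [hth, hp]; unfold ent
          rw [show (1 : ℝ) - 1 / 2 = 1 / 2 by norm_num, Real.log_div one_ne_zero two_ne_zero,
            Real.log_one]; ring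
        rw [h5] at hd
        have : d0 l g q = 1 := by
          have := mul_right_cancel₀ hlog.ne' (hd.trans (one_mul _).symm); exact this
        linarith
      obtain ⟨c, hc, hcn⟩ := hRW _ hp0 hp1 hp2
      obtain ⟨C, hC, hCn⟩ := hCMP l g q ⟨hl0, hg, hq0, hl1, hqg⟩ hl' hqg' hr
      have hmm : ∀ n k : ℕ, k < 2 ^ n → 0 ≤ mm l g q n 0 k := by
        intro n k hk; rw [← hII n k hk]; exact measureReal_nonneg
      obtain ⟨K, hKm, hK1, hKx, hK0⟩ := hBIG μ inferInstance (theta0 l g q) (c / C)
        (div_pos hc hC) (by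
          intro a
          obtain ⟨n, hn⟩ := hcn (a * C)
          refine ⟨n, ?_⟩
          rw [div_le_iff₀ hC, mul_comm, Finset.mul_sum]
          refine hn.trans ?_
          have hsub : (Finset.range (2 ^ n)).filter
              (fun k => a * C ≤ Real.exp (n * ent (P0 g (q - g))) * bb (P0 g (q - g)) n k) ⊆
              (Finset.range (2 ^ n)).filter
                (fun k => a ≤ Real.exp (n * theta0 l g q) * μ.real (II n k)) := by
            intro k hk
            rw [Finset.mem_filter, Finset.mem_range] at hk ⊢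
            refine ⟨hk.1, ?_⟩
            rw [hII n k hk.1, hth]
            have h6 := hCn n k hk.1
            have h7 : a * C ≤ Real.exp (n * ent (P0 g (q - g))) * mm l g q n 0 k * C := by
              refine hk.2.trans ?_
              have := mul_le_mul_of_nonneg_left h6 (Real.exp_pos (n * ent (P0 g (q - g)))).le
              linarith
            exact le_of_mul_le_mul_right h7 hC
          have e1 : ∑ k ∈ (Finset.range (2 ^ n)).filter
              (fun k => a * C ≤ Real.exp (n * ent (P0 g (q - g))) * bb (P0 g (q - g)) n k),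
                bb (P0 g (q - g)) n k ≤
              ∑ k ∈ (Finset.range (2 ^ n)).filter
              (fun k => a * C ≤ Real.exp (n * ent (P0 g (q - g))) * bb (P0 g (q - g)) n k),
                C * μ.real (II n k) := by
            apply Finset.sum_le_sum
            intro k hk
            rw [Finset.mem_filter, Finset.mem_range] at hk
            rw [hII n k hk.1]
            exact hCn n k hk.1
          refine e1.trans ?_
          apply Finset.sum_le_sum_of_subset_of_nonneg hsub
          intro k _ _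
          exact mul_nonneg hC.le measureReal_nonneg)
      apply hK0
      refine hprop K hKm (hK1.trans Ico_subset_Icc_self) ?_
      intro _
      apply hPOL μ inferInstance (d0 l g q) hd0 hd1 K hKm hK1
      intro x hx M
      rw [hd]
      exact hKx x hx M
    · have h0 := hprop (Icc 0 1) measurableSet_Icc le_rfl (fun h => absurd h hd1)
      have h1 : μ (Ico 0 1) ≤ μ (Icc 0 1) := measure_mono Ico_subset_Icc_self
      rw [h0, hone] at h1
      simp at h1
  · intro hexc K hKm hK1 hpol
    by_cases hdeg : l = 1 ∨ q = g - 1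
    · -- degenerate parameters
      have ht := hthd hdeg
      have hd00 : d0 l g q = 0 := by unfold d0; rw [ht]; simp
      obtain ⟨C, hC⟩ := hLYAP l g q h
      have hae := hAE μ inferInstance hcompl 1 0 C one_pos le_rfl le_rfl (by
        intro N
        refine le_trans (le_of_eq ?_) (hC N)
        apply Finset.sum_congr rfl
        intro n _
        apply Finset.sum_congr rfl
        intro k hk
        rw [hII n k (Finset.mem_range.mp hk)]
        norm_num)
      rw [hd00] at hpol
      refine hCAP μ inferInstance 0 le_rfl one_pos ?_ K hKm hK1 (hpol one_pos)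
      filter_upwards [hae] with x hx
      simpa using hx
    · rw [not_or] at hdeg
      have hl' : 1 < l := lt_of_le_of_ne h.2.2.2.1 (Ne.symm hdeg.1)
      have hqg' : g - 1 < q := lt_of_le_of_ne h.2.2.2.2 (Ne.symm hdeg.2)
      obtain ⟨hlt, c, hc, hcy⟩ := hPSI l g q h hl' hqg' hexc
      obtain ⟨haa, -, -, -⟩ := hthn hl' hqg'
      have haa0 : aa l g q ≤ 0 := by unfold aa; exact min_le_left _ _
      have hbt0 : 0 ≤ bt l g q := by unfold bt; exact le_max_left _ _
      obtain ⟨ε, hε, hε1, C, hC⟩ := hKEPS l g q (theta0 l g q) c (aa l g q) (bt l g q) h hth0 hc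
        haa haa0 hbt0 hcy
      have hae := hAE μ inferInstance hcompl ε (theta0 l g q) C hε hε1 hth0 (by
        intro N
        refine le_trans (le_of_eq ?_) (hC N)
        apply Finset.sum_congr rfl
        intro n _
        apply Finset.sum_congr rfl
        intro k hk
        rw [hII n k (Finset.mem_range.mp hk)])
      have hd1 : d0 l g q < 1 := by
        unfold d0; rw [div_lt_one hlog]; exact hlt
      refine hCAP μ inferInstance (d0 l g q) hd0 hd1 ?_ K hKm hK1 (hpol hd1)
      filter_upwards [hae] with x hx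
      rw [hd]; exact hx

end Pool.Agent.R979.MD
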