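import Pool.Agent.R979.MD.Stm

set_option autoImplicit false

open MeasureTheory Set Filter Topology

/-!
# MD-KEPS: exponential moment bound
-/

namespace Pool.Agent.R979.MD

namespace KEPS

noncomputable def T (l g q ε θ : ℝ) (n : ℕ) (y : ℝ) : ℝ :=
  ∑ k ∈ Finset.range (2 ^ n), (mm l g q n y k) ^ (1 + ε) * Real.exp (n * ε * θ)

lemma term (w θ ε L : ℝ) (hw : 0 < w) (hL : |Real.log w + 2 * θ| ≤ L) (hε : 0 < ε)
    (hεL : ε * L ≤ 1) :
    w ^ (1 + ε) * Real.exp (2 * ε * θ) ≤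
      w * (1 + ε * (Real.log w + 2 * θ) + (ε * L) ^ 2) := by
  have h1 : w ^ (1 + ε) * Real.exp (2 * ε * θ) =
      w * Real.exp (ε * (Real.log w + 2 * θ)) := by
    rw [Real.rpow_add hw, Real.rpow_one, Real.rpow_def_of_pos hw, mul_assoc, ← Real.exp_add]
    congr 2
    ring
  rw [h1]
  have hx : |ε * (Real.log w + 2 * θ)| ≤ ε * L := by
    rw [abs_mul, abs_of_pos hε]; gcongr
  have h2 := Real.abs_exp_sub_one_sub_id_le (hx.trans hεL)
  have h3 := (abs_le.1 h2).2
  have h4 : (ε * (Real.log w + 2 * θ)) ^ 2 ≤ (ε * L) ^ 2 := by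
    rw [← sq_abs]
    exact pow_le_pow_left₀ (abs_nonneg _) hx 2
  have : Real.exp (ε * (Real.log w + 2 * θ)) ≤
      1 + ε * (Real.log w + 2 * θ) + (ε * L) ^ 2 := by linarith
  gcongr

lemma four (u v s t u' v' θ ε L c ρ : ℝ) (hρ : 0 < ρ)
    (hu : ρ ≤ u) (hu' : ρ ≤ u') (huu : u + u' = 1)
    (hv : ρ ≤ v) (hv' : ρ ≤ v') (hvv : v + v' = 1)
    (hs : ρ ≤ s) (hs' : ρ ≤ t) (hst : s + t = 1)
    (hL : 2 * |Real.log ρ| + 2 * |θ| ≤ L) (hε : 0 < ε) (hεL : ε * L ≤ 1)
    (hc : 2 * θ + c ≤ ent u + u * ent v + u' * ent s) (hcL : ε * L ^ 2 ≤ c / 2) :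
    ((u * v) ^ (1 + ε) + (u * v') ^ (1 + ε) + (u' * s) ^ (1 + ε) + (u' * t) ^ (1 + ε)) *
      Real.exp (2 * ε * θ) ≤ 1 - ε * c / 2 := by
  have hlog : ∀ x : ℝ, ρ ≤ x → x ≤ 1 → |Real.log x| ≤ |Real.log ρ| := by
    intro x hx hx1
    have hx0 : 0 < x := hρ.trans_le hx
    have h1 : Real.log x ≤ 0 := Real.log_nonpos hx0.le hx1
    have h2 : Real.log ρ ≤ Real.log x := Real.log_le_log hρ hx
    rw [abs_of_nonpos h1, abs_of_nonpos (h2.trans h1)]
    linarith
  have hprod : ∀ x y : ℝ, ρ ≤ x → x ≤ 1 → ρ ≤ y → y ≤ 1 → 0 < x * y ∧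
      Real.log (x * y) = Real.log x + Real.log y ∧ |Real.log (x * y) + 2 * θ| ≤ L := by
    intro x y hx hx1 hy hy1
    have hx0 : 0 < x := hρ.trans_le hx
    have hy0 : 0 < y := hρ.trans_le hy
    have h1 := Real.log_mul hx0.ne' hy0.ne'
    refine ⟨mul_pos hx0 hy0, h1, ?_⟩
    rw [h1]
    have h2 := hlog x hx hx1
    have h3 := hlog y hy hy1
    have h4 := abs_add_le (Real.log x + Real.log y) (2 * θ)
    have h5 := abs_add_le (Real.log x) (Real.log y)
    have h6 : |2 * θ| = 2 * |θ| := by rw [abs_mul]; norm_num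
    linarith
  have hu0 : 0 < u := hρ.trans_le hu
  have hu0' : 0 < u' := hρ.trans_le hu'
  have hv0 : 0 < v := hρ.trans_le hv
  have hv0' : 0 < v' := hρ.trans_le hv'
  have hs0 : 0 < s := hρ.trans_le hs
  have hs0' : 0 < t := hρ.trans_le hs'
  obtain ⟨p1, l1, b1⟩ := hprod u v hu (by linarith) hv (by linarith)
  obtain ⟨p2, l2, b2⟩ := hprod u v' hu (by linarith) hv' (by linarith)
  obtain ⟨p3, l3, b3⟩ := hprod u' s hu' (by linarith) hs (by linarith)
  obtain ⟨p4, l4, b4⟩ := hprod u' t hu' (by linarith) hs' (by linarith)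
  have t1 := term _ θ ε L p1 b1 hε hεL
  have t2 := term _ θ ε L p2 b2 hε hεL
  have t3 := term _ θ ε L p3 b3 hε hεL
  have t4 := term _ θ ε L p4 b4 hε hεL
  rw [l1] at t1
  rw [l2] at t2
  rw [l3] at t3
  rw [l4] at t4
  have hu'e : u' = 1 - u := by linarith
  have hv'e : v' = 1 - v := by linarith
  have hte : t = 1 - s := by linarith
  have hsum : (u * v) * (1 + ε * (Real.log u + Real.log v + 2 * θ) + (ε * L) ^ 2) +
      (u * v') * (1 + ε * (Real.log u + Real.log v' + 2 * θ) + (ε * L) ^ 2) +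
      (u' * s) * (1 + ε * (Real.log u' + Real.log s + 2 * θ) + (ε * L) ^ 2) +
      (u' * t) * (1 + ε * (Real.log u' + Real.log t + 2 * θ) + (ε * L) ^ 2) =
      1 + (ε * L) ^ 2 + ε * (2 * θ - (ent u + u * ent v + u' * ent s)) := by
    unfold ent
    rw [← hu'e, ← hv'e, ← hte]
    have e1 : v' = 1 - v := hv'e
    generalize Real.log u = A1
    generalize Real.log v = A2
    generalize Real.log v' = A3
    generalize Real.log u' = A4
    generalize Real.log s = A5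
    generalize Real.log t = A6
    subst hv'e hte hu'e
    ring
  have hfin : ε * (2 * θ - (ent u + u * ent v + u' * ent s)) ≤ ε * (-c) := by
    apply mul_le_mul_of_nonneg_left _ hε.le
    linarith
  have hfin2 : (ε * L) ^ 2 ≤ ε * (c / 2) := by
    have : (ε * L) ^ 2 = ε * (ε * L ^ 2) := by ring
    rw [this]
    gcongr
  calc _ = (u * v) ^ (1 + ε) * Real.exp (2 * ε * θ) + (u * v') ^ (1 + ε) * Real.exp (2 * ε * θ) +
        (u' * s) ^ (1 + ε) * Real.exp (2 * ε * θ) + (u' * t) ^ (1 + ε) * Real.exp (2 * ε * θ) := by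
        ring
    _ ≤ _ := by linarith

lemma mm_nonneg {l g q a b : ℝ}
    (hG : ∀ y ∈ Icc a b, G0 l g y ∈ Icc a b ∧ G1 g q y ∈ Icc a b)
    (hP : ∀ y ∈ Icc a b, 0 ≤ P0 g y ∧ 0 ≤ P1 g y) :
    ∀ (n : ℕ), ∀ y ∈ Icc a b, ∀ k, 0 ≤ mm l g q n y k := by
  intro n
  induction n with
  | zero => intro y _ k; simp [mm]
  | succ n ih =>
    intro y hy k
    rw [mm]
    split_ifs
    · exact mul_nonneg (hP y hy).1 (ih _ (hG y hy).1 _)
    · exact mul_nonneg (hP y hy).2 (ih _ (hG y hy).2 _)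

lemma T_succ {l g q a b ε θ : ℝ}
    (hG : ∀ y ∈ Icc a b, G0 l g y ∈ Icc a b ∧ G1 g q y ∈ Icc a b)
    (hP : ∀ y ∈ Icc a b, 0 ≤ P0 g y ∧ 0 ≤ P1 g y) (n : ℕ) (y : ℝ) (hy : y ∈ Icc a b) :
    T l g q ε θ (n + 1) y = Real.exp (ε * θ) *
      (P0 g y ^ (1 + ε) * T l g q ε θ n (G0 l g y) +
        P1 g y ^ (1 + ε) * T l g q ε θ n (G1 g q y)) := by
  have hmm := mm_nonneg hG hP
  have hexp : Real.exp (((n + 1 : ℕ) : ℝ) * ε * θ) =
      Real.exp (ε * θ) * Real.exp ((n : ℝ) * ε * θ) := by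
    rw [← Real.exp_add]; congr 1; push_cast; ring
  unfold T
  rw [pow_succ, mul_two, Finset.sum_range_add, mul_add, Finset.mul_sum, Finset.mul_sum,
    Finset.mul_sum, Finset.mul_sum]
  congr 1
  · refine Finset.sum_congr rfl fun k hk => ?_
    rw [Finset.mem_range] at hk
    rw [mm, if_pos hk, Real.mul_rpow (hP y hy).1 (hmm n _ (hG y hy).1 k), hexp]
    ring
  · refine Finset.sum_congr rfl fun k hk => ?_
    rw [mm, if_neg (by omega), Nat.add_sub_cancel_left,
      Real.mul_rpow (hP y hy).2 (hmm n _ (hG y hy).2 k), hexp]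
    ring

lemma T_nonneg {l g q a b ε θ : ℝ}
    (hG : ∀ y ∈ Icc a b, G0 l g y ∈ Icc a b ∧ G1 g q y ∈ Icc a b)
    (hP : ∀ y ∈ Icc a b, 0 ≤ P0 g y ∧ 0 ≤ P1 g y) (n : ℕ) (y : ℝ) (hy : y ∈ Icc a b) :
    0 ≤ T l g q ε θ n y := by
  unfold T
  exact Finset.sum_nonneg fun k _ => mul_nonneg
    (Real.rpow_nonneg (mm_nonneg hG hP n y hy k) _) (Real.exp_nonneg _)

end KEPS

open KEPS in
theorem t_KEPS : S_KEPS := by
  intro l g q θ c a b hT hθ hc ha ha0 hb0 h
  obtain ⟨hl0, hg1, hq0, hl1, hq1⟩ := hT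
  have hG : ∀ y ∈ Icc a b, G0 l g y ∈ Icc a b ∧ G1 g q y ∈ Icc a b :=
    fun y hy => ⟨(h y hy).1, (h y hy).2.1⟩
  -- bounds for the probabilities
  set ρ : ℝ := min ((a + 1) / (a + g)) ((g - 1) / (b + g)) with hρ
  have hρ0 : 0 < ρ := lt_min (div_pos (by linarith) (by linarith))
    (div_pos (by linarith) (by linarith))
  have hPρ : ∀ y ∈ Icc a b, ρ ≤ P0 g y ∧ ρ ≤ P1 g y ∧ P0 g y + P1 g y = 1 := by
    intro y hy
    have hyg : 0 < y + g := by linarith [hy.1]
    refine ⟨(min_le_left _ _).trans ?_, (min_le_right _ _).trans ?_, ?_⟩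
    · unfold P0
      rw [div_le_div_iff₀ (by linarith) hyg]
      nlinarith [hy.1, mul_nonneg (sub_nonneg.2 hy.1) (sub_nonneg.2 hg1.le)]
    · unfold P1
      exact div_le_div_of_nonneg_left (by linarith) hyg (by linarith [hy.2])
    · unfold P0 P1
      field_simp
      ring
  have hP : ∀ y ∈ Icc a b, 0 ≤ P0 g y ∧ 0 ≤ P1 g y := fun y hy =>
    ⟨hρ0.le.trans (hPρ y hy).1, hρ0.le.trans (hPρ y hy).2.1⟩
  set L : ℝ := 2 * |Real.log ρ| + 2 * |θ| + 1 with hLdef
  have hL1 : 1 ≤ L := by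
    have := abs_nonneg (Real.log ρ)
    have := abs_nonneg θ
    linarith
  have hL0 : 0 < L := by linarith
  set ε : ℝ := min (min 1 (1 / L)) (min (c / (2 * L ^ 2)) (1 / c)) with hεdef
  have hε0 : 0 < ε := lt_min (lt_min one_pos (by positivity)) (lt_min (by positivity) (by positivity))
  have hε1 : ε ≤ 1 := (min_le_left _ _).trans (min_le_left _ _)
  have hεL : ε * L ≤ 1 := by
    have : ε ≤ 1 / L := (min_le_left _ _).trans (min_le_right _ _)
    rwa [le_div_iff₀ hL0] at this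
  have hεc : ε * L ^ 2 ≤ c / 2 := by
    have : ε ≤ c / (2 * L ^ 2) := (min_le_right _ _).trans (min_le_left _ _)
    rw [le_div_iff₀ (by positivity)] at this
    linarith
  have hεc1 : ε * c ≤ 1 := by
    have : ε ≤ 1 / c := (min_le_right _ _).trans (min_le_right _ _)
    rwa [le_div_iff₀ hc] at this
  set κ : ℝ := 1 - ε * c / 2 with hκ
  have hκ0 : 0 < κ := by linarith
  have hκ1 : κ < 1 := by
    have : 0 < ε * c := by positivity
    linarith
  set lam : ℝ := √κ with hlam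
  have hlam0 : 0 < lam := Real.sqrt_pos.2 hκ0
  have hlam1 : lam < 1 := by
    rw [hlam, Real.sqrt_lt' one_pos]; simpa using hκ1
  have hlam2 : lam ^ 2 = κ := Real.sq_sqrt hκ0.le
  set D : ℝ := Real.exp θ / lam with hD
  have hD0 : 0 < D := by positivity
  have hexpθ : 1 ≤ Real.exp θ := Real.one_le_exp hθ
  have hD1 : 1 ≤ D := by
    rw [hD, le_div_iff₀ hlam0]; linarith
  -- main induction
  have main : ∀ n : ℕ, ∀ y ∈ Icc a b, T l g q ε θ n y ≤ D * lam ^ n := by
    have hboth : ∀ n : ℕ, (∀ y ∈ Icc a b, T l g q ε θ n y ≤ D * lam ^ n) ∧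
        (∀ y ∈ Icc a b, T l g q ε θ (n + 1) y ≤ D * lam ^ (n + 1)) := by
      intro n
      induction n with
      | zero =>
        have h0 : ∀ y : ℝ, T l g q ε θ 0 y = 1 := by
          intro y; unfold T; simp [mm]
        refine ⟨fun y _ => by rw [h0]; simpa using hD1, fun y hy => ?_⟩
        rw [T_succ hG hP 0 y hy, h0, h0]
        obtain ⟨q1, q2, q3⟩ := hPρ y hy
        have r1 : P0 g y ^ (1 + ε) ≤ P0 g y := by
          have := Real.rpow_le_rpow_of_exponent_ge (hρ0.trans_le q1) (by linarith)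
            (show (1 : ℝ) ≤ 1 + ε by linarith)
          simpa using this
        have r2 : P1 g y ^ (1 + ε) ≤ P1 g y := by
          have := Real.rpow_le_rpow_of_exponent_ge (hρ0.trans_le q2) (by linarith)
            (show (1 : ℝ) ≤ 1 + ε by linarith)
          simpa using this
        have r3 : P0 g y ^ (1 + ε) * 1 + P1 g y ^ (1 + ε) * 1 ≤ 1 := by linarith
        have r4 : Real.exp (ε * θ) ≤ Real.exp θ := by
          apply Real.exp_le_exp.2
          nlinarith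
        have r5 : D * lam ^ (0 + 1) = Real.exp θ := by
          rw [hD, zero_add, pow_one]; field_simp
        rw [r5]
        calc Real.exp (ε * θ) * (P0 g y ^ (1 + ε) * 1 + P1 g y ^ (1 + ε) * 1)
            ≤ Real.exp (ε * θ) * 1 := by gcongr
          _ ≤ Real.exp θ := by rw [mul_one]; exact r4
      | succ n ih =>
        refine ⟨ih.2, fun y hy => ?_⟩
        have hG0 := (hG y hy).1
        have hG1 := (hG y hy).2
        rw [T_succ hG hP (n + 1) y hy, T_succ hG hP n _ hG0, T_succ hG hP n _ hG1]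
        obtain ⟨q1, q2, q3⟩ := hPρ y hy
        obtain ⟨q4, q5, q6⟩ := hPρ _ hG0
        obtain ⟨q7, q8, q9⟩ := hPρ _ hG1
        have k4 := four (P0 g y) (P0 g (G0 l g y)) (P0 g (G1 g q y)) (P1 g (G1 g q y))
          (P1 g y) (P1 g (G0 l g y)) θ ε L c ρ hρ0 q1 q2 q3 q4 q5 q6 q7 q8 q9
          (by rw [hLdef]; linarith) hε0 hεL (h y hy).2.2 hεc
        have hM0 : 0 ≤ D * lam ^ n := by positivity
        have e00 := ih.1 _ (hG _ hG0).1
        have e01 := ih.1 _ (hG _ hG0).2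
        have e10 := ih.1 _ (hG _ hG1).1
        have e11 := ih.1 _ (hG _ hG1).2
        rw [Real.mul_rpow (hP y hy).1 (hP _ hG0).1, Real.mul_rpow (hP y hy).1 (hP _ hG0).2,
          Real.mul_rpow (hP y hy).2 (hP _ hG1).1, Real.mul_rpow (hP y hy).2 (hP _ hG1).2] at k4
        have n1 := Real.rpow_nonneg (hP y hy).1 (1 + ε)
        have n2 := Real.rpow_nonneg (hP y hy).2 (1 + ε)
        have n3 := Real.rpow_nonneg (hP _ hG0).1 (1 + ε)
        have n4 := Real.rpow_nonneg (hP _ hG0).2 (1 + ε)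
        have n5 := Real.rpow_nonneg (hP _ hG1).1 (1 + ε)
        have n6 := Real.rpow_nonneg (hP _ hG1).2 (1 + ε)
        have hexp2 : Real.exp (2 * ε * θ) = Real.exp (ε * θ) * Real.exp (ε * θ) := by
          rw [← Real.exp_add]; congr 1; ring
        have hE := Real.exp_nonneg (ε * θ)
        have hpow : D * lam ^ (n + 1 + 1) = κ * (D * lam ^ n) := by
          rw [← hlam2]; ring
        rw [hpow]
        calc Real.exp (ε * θ) * (P0 g y ^ (1 + ε) * (Real.exp (ε * θ) *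
              (P0 g (G0 l g y) ^ (1 + ε) * T l g q ε θ n (G0 l g (G0 l g y)) +
                P1 g (G0 l g y) ^ (1 + ε) * T l g q ε θ n (G1 g q (G0 l g y)))) +
              P1 g y ^ (1 + ε) * (Real.exp (ε * θ) *
              (P0 g (G1 g q y) ^ (1 + ε) * T l g q ε θ n (G0 l g (G1 g q y)) +
                P1 g (G1 g q y) ^ (1 + ε) * T l g q ε θ n (G1 g q (G1 g q y)))))
            ≤ Real.exp (ε * θ) * (P0 g y ^ (1 + ε) * (Real.exp (ε * θ) *
              (P0 g (G0 l g y) ^ (1 + ε) * (D * lam ^ n) +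
                P1 g (G0 l g y) ^ (1 + ε) * (D * lam ^ n))) +
              P1 g y ^ (1 + ε) * (Real.exp (ε * θ) *
              (P0 g (G1 g q y) ^ (1 + ε) * (D * lam ^ n) +
                P1 g (G1 g q y) ^ (1 + ε) * (D * lam ^ n)))) := by gcongr
          _ = (P0 g y ^ (1 + ε) * P0 g (G0 l g y) ^ (1 + ε) +
                P0 g y ^ (1 + ε) * P1 g (G0 l g y) ^ (1 + ε) +
                P1 g y ^ (1 + ε) * P0 g (G1 g q y) ^ (1 + ε) +
                P1 g y ^ (1 + ε) * P1 g (G1 g q y) ^ (1 + ε)) * Real.exp (2 * ε * θ) *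
                (D * lam ^ n) := by rw [hexp2]; ring
          _ ≤ κ * (D * lam ^ n) := by gcongr
    exact fun n => (hboth n).1
  refine ⟨ε, hε0, hε1, D * (1 / (1 - lam)), fun N => ?_⟩
  have hy0 : (0 : ℝ) ∈ Icc a b := ⟨ha0, hb0⟩
  calc ∑ n ∈ Finset.range N, ∑ k ∈ Finset.range (2 ^ n),
      (mm l g q n 0 k) ^ (1 + ε) * Real.exp (n * ε * θ)
      ≤ ∑ n ∈ Finset.range N, D * lam ^ n := Finset.sum_le_sum fun n _ => main n 0 hy0
    _ = D * ∑ n ∈ Finset.range N, lam ^ n := by rw [Finset.mul_sum]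
    _ ≤ D * (1 / (1 - lam)) := by
        gcongr
        rw [one_div, ← tsum_geometric_of_lt_one hlam0.le hlam1]
        exact (summable_geometric_of_lt_one hlam0.le hlam1).sum_le_tsum _
          (fun i _ => by positivity)

end Pool.Agent.R979.MD
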