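import Pool.Agent.R979.MD.Stm

set_option autoImplicit false

open Set Filter Topology

namespace Pool.Agent.R979.MD

namespace LYAP

/-- The Lyapunov function. -/
noncomputable def V (l g q y : ℝ) : ℝ :=
  2 / (g - 1) * (y + 1) + (q / (g - 1) + l) + 2 * (g - 1) / (y + 1)

/-- The algebraic inequality in the variables `c = g - 1` and `x = P1`. -/
theorem ineq (l q c x : ℝ) (hl : 1 ≤ l) (hc : 0 < c) (hq : c ≤ q) (hx0 : 0 < x) (hx1 : x < 1) :
    2 ≤ 2 / c * (c * (1 - x) / x - c * (1 - x) ^ 2 / (l * x) - q * x ^ 2 * (1 - x))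
      + 2 * (q / c + l) * x * (1 - x)
      + 2 * c * (x / (c * (1 - x)) - l * x * (1 - x) ^ 2 / c - x ^ 2 / (q * (1 - x))) := by
  have h1x : 0 < 1 - x := by linarith
  have hl0 : 0 < l := by linarith
  have hq0 : 0 < q := by linarith
  have a1 : c * (1 - x) / x - c * (1 - x) ^ 2 / (l * x) - q * x ^ 2 * (1 - x) ≥
      (1 - x) * (c - q * x ^ 2) := by
    have h2 : c * (1 - x) ^ 2 / (l * x) ≤ c * (1 - x) ^ 2 / x := by
      apply div_le_div_of_nonneg_left (by positivity) hx0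
      nlinarith
    have h3 : c * (1 - x) / x - c * (1 - x) ^ 2 / x = c * (1 - x) := by
      field_simp; ring
    linarith
  have a2 : x / (c * (1 - x)) - l * x * (1 - x) ^ 2 / c - x ^ 2 / (q * (1 - x)) ≥
      (x / c) * (1 - l * (1 - x) ^ 2) := by
    have h2 : x ^ 2 / (q * (1 - x)) ≤ x ^ 2 / (c * (1 - x)) := by
      apply div_le_div_of_nonneg_left (by positivity) (by positivity)
      gcongr
    have h3 : x / (c * (1 - x)) - x ^ 2 / (c * (1 - x)) = x / c := by
      field_simp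
    have h4 : (x / c) * (1 - l * (1 - x) ^ 2) = x / c - l * x * (1 - x) ^ 2 / c := by ring
    rw [h4]
    linarith
  have b1 : 2 / c * (c * (1 - x) / x - c * (1 - x) ^ 2 / (l * x) - q * x ^ 2 * (1 - x)) ≥
      2 / c * ((1 - x) * (c - q * x ^ 2)) := by
    apply mul_le_mul_of_nonneg_left a1 (by positivity)
  have b2 : 2 * c * (x / (c * (1 - x)) - l * x * (1 - x) ^ 2 / c - x ^ 2 / (q * (1 - x))) ≥
      2 * c * ((x / c) * (1 - l * (1 - x) ^ 2)) := by
    apply mul_le_mul_of_nonneg_left a2 (by positivity)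
  have b3 : 2 / c * ((1 - x) * (c - q * x ^ 2)) + 2 * (q / c + l) * x * (1 - x) +
      2 * c * ((x / c) * (1 - l * (1 - x) ^ 2)) =
      2 + 2 * x * (1 - x) * ((q / c) * (1 - x) + l * x) := by
    field_simp; ring
  have b4 : 0 ≤ 2 * x * (1 - x) * ((q / c) * (1 - x) + l * x) := by positivity
  linarith

theorem step (l g q y : ℝ) (h : Trap l g q) (hy : -1 < y) :
    P0 g y ^ 2 * V l g q (G0 l g y) + P1 g y ^ 2 * V l g q (G1 g q y) + 1 ≤ V l g q y ∧
      -1 < G0 l g y ∧ -1 < G1 g q y := by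
  obtain ⟨hl0, hg, hq0, hl, hgq⟩ := h
  have hyg : 0 < y + g := by linarith
  have hy1 : 0 < y + 1 := by linarith
  have hc : 0 < g - 1 := by linarith
  have e0 : G0 l g y + 1 = (y + g) / l := by unfold G0; field_simp; ring
  have e1 : G1 g q y + 1 = q * (y + 1) / (y + g) := by unfold G1; field_simp; ring
  refine ⟨?_, ?_, ?_⟩
  · have hx0 : 0 < (g - 1) / (y + g) := by positivity
    have hx1 : (g - 1) / (y + g) < 1 := by rw [div_lt_one hyg]; linarith
    have key := ineq l q (g - 1) ((g - 1) / (y + g)) hl hc hgq hx0 hx1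
    have h1x : 1 - (g - 1) / (y + g) = (y + 1) / (y + g) := by field_simp; ring
    rw [h1x] at key
    unfold V P0 P1
    rw [e0, e1]
    have e2 : 2 / (g - 1) * (y + 1) + (q / (g - 1) + l) + 2 * (g - 1) / (y + 1) -
      (((y + 1) / (y + g)) ^ 2 * (2 / (g - 1) * ((y + g) / l) + (q / (g - 1) + l) +
        2 * (g - 1) / ((y + g) / l)) +
      ((g - 1) / (y + g)) ^ 2 * (2 / (g - 1) * (q * (y + 1) / (y + g)) + (q / (g - 1) + l) +
        2 * (g - 1) / (q * (y + 1) / (y + g)))) =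
      2 / (g - 1) * ((g - 1) * ((y + 1) / (y + g)) / ((g - 1) / (y + g)) -
        (g - 1) * ((y + 1) / (y + g)) ^ 2 / (l * ((g - 1) / (y + g))) -
        q * ((g - 1) / (y + g)) ^ 2 * ((y + 1) / (y + g))) +
      2 * (q / (g - 1) + l) * ((g - 1) / (y + g)) * ((y + 1) / (y + g)) +
      2 * (g - 1) * ((g - 1) / (y + g) / ((g - 1) * ((y + 1) / (y + g))) -
        l * ((g - 1) / (y + g)) * ((y + 1) / (y + g)) ^ 2 / (g - 1) -
        ((g - 1) / (y + g)) ^ 2 / (q * ((y + 1) / (y + g)))) := by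
      have hB : (1 : ℝ) - ((y + 1) / (y + g)) ^ 2 - ((g - 1) / (y + g)) ^ 2 =
        2 * ((g - 1) / (y + g)) * ((y + 1) / (y + g)) := by
        field_simp; ring
      have hA1 : (y + 1) = (g - 1) * ((y + 1) / (y + g)) / ((g - 1) / (y + g)) := by
        field_simp
      have hA2 : ((y + 1) / (y + g)) ^ 2 * ((y + g) / l) =
        (g - 1) * ((y + 1) / (y + g)) ^ 2 / (l * ((g - 1) / (y + g))) := by
        field_simp
      have hA3 : ((g - 1) / (y + g)) ^ 2 * (q * (y + 1) / (y + g)) =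
        q * ((g - 1) / (y + g)) ^ 2 * ((y + 1) / (y + g)) := by
        ring
      have hC1 : 1 / (y + 1) = (g - 1) / (y + g) / ((g - 1) * ((y + 1) / (y + g))) := by
        field_simp
      have hC2 : ((y + 1) / (y + g)) ^ 2 / ((y + g) / l) =
        l * ((g - 1) / (y + g)) * ((y + 1) / (y + g)) ^ 2 / (g - 1) := by
        field_simp
      have hC3 : ((g - 1) / (y + g)) ^ 2 / (q * (y + 1) / (y + g)) =
        ((g - 1) / (y + g)) ^ 2 / (q * ((y + 1) / (y + g))) := by
        ring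
      rw [← hA1, ← hA2, ← hA3, ← hC1, ← hC2, ← hC3]
      linear_combination (q / (g - 1) + l) * hB
    linarith
  · have : 0 < G0 l g y + 1 := by rw [e0]; positivity
    linarith
  · have : 0 < G1 g q y + 1 := by rw [e1]; positivity
    linarith

theorem V_nonneg (l g q y : ℝ) (h : Trap l g q) (hy : -1 < y) : 0 ≤ V l g q y := by
  obtain ⟨hl0, hg, hq0, hl, hgq⟩ := h
  have hc : 0 < g - 1 := by linarith
  have hy1 : 0 < y + 1 := by linarith
  unfold V
  positivity

theorem mm_sq_sum (l g q : ℝ) (n : ℕ) (y : ℝ) :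
    ∑ k ∈ Finset.range (2 ^ (n + 1)), (mm l g q (n + 1) y k) ^ 2 =
      P0 g y ^ 2 * ∑ k ∈ Finset.range (2 ^ n), (mm l g q n (G0 l g y) k) ^ 2 +
      P1 g y ^ 2 * ∑ k ∈ Finset.range (2 ^ n), (mm l g q n (G1 g q y) k) ^ 2 := by
  rw [pow_succ, mul_two, Finset.sum_range_add, Finset.mul_sum, Finset.mul_sum]
  congr 1
  · apply Finset.sum_congr rfl
    intro k hk
    rw [Finset.mem_range] at hk
    simp only [mm]; rw [if_pos hk]; ring
  · apply Finset.sum_congr rfl
    intro k hk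
    simp only [mm]; rw [if_neg (by omega), Nat.add_sub_cancel_left]; ring

theorem bound (l g q : ℝ) (h : Trap l g q) (N : ℕ) : ∀ y : ℝ, -1 < y →
    ∑ n ∈ Finset.range N, ∑ k ∈ Finset.range (2 ^ n), (mm l g q n y k) ^ 2 ≤ V l g q y := by
  induction N with
  | zero => intro y hy; simpa using V_nonneg l g q y h hy
  | succ N ih =>
    intro y hy
    obtain ⟨h1, h2, h3⟩ := step l g q y h hy
    rw [Finset.sum_range_succ']
    have h4 : ∑ k ∈ Finset.range (2 ^ 0), (mm l g q 0 y k) ^ 2 = 1 := by simp [mm]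
    rw [h4]
    have h5 : ∑ n ∈ Finset.range N, ∑ k ∈ Finset.range (2 ^ (n + 1)), (mm l g q (n + 1) y k) ^ 2 =
        P0 g y ^ 2 * ∑ n ∈ Finset.range N, ∑ k ∈ Finset.range (2 ^ n),
          (mm l g q n (G0 l g y) k) ^ 2 +
        P1 g y ^ 2 * ∑ n ∈ Finset.range N, ∑ k ∈ Finset.range (2 ^ n),
          (mm l g q n (G1 g q y) k) ^ 2 := by
      rw [Finset.mul_sum, Finset.mul_sum, ← Finset.sum_add_distrib]
      exact Finset.sum_congr rfl fun n _ => mm_sq_sum l g q n y
    rw [h5]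
    have h6 := mul_le_mul_of_nonneg_left (ih _ h2) (sq_nonneg (P0 g y))
    have h7 := mul_le_mul_of_nonneg_left (ih _ h3) (sq_nonneg (P1 g y))
    linarith

end LYAP

theorem t_LYAP : S_LYAP := by
  intro l g q h
  exact ⟨LYAP.V l g q 0, fun N => LYAP.bound l g q h N 0 (by norm_num)⟩

end Pool.Agent.R979.MD
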