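import Pool.Agent.R979.MD.Stm
import Pool.Agent.R732.MD.Dy

set_option autoImplicit false

open MeasureTheory Set Filter Topology

namespace Pool.Agent.R979.MD

/-- points whose dyadic interval of level `n` is the first heavy one -/
def PolA (μ : Measure ℝ) (s M : ℝ) (n : ℕ) : Set ℝ :=
  {x | x ∈ Ico (0 : ℝ) 1 ∧ M ≤ Real.exp (n * (s * Real.log 2)) * μ.real (dy n x) ∧
    ∀ m < n, Real.exp (m * (s * Real.log 2)) * μ.real (dy m x) < M}

theorem PolA_of_mem {μ : Measure ℝ} {s M : ℝ} {n k : ℕ} {x y : ℝ} (hx : x ∈ PolA μ s M n)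
    (hxk : x ∈ II n k) (hyk : y ∈ II n k) : y ∈ PolA μ s M n := by
  have hfl : ⌊(2 : ℝ) ^ n * x⌋ = ⌊(2 : ℝ) ^ n * y⌋ := by
    rw [mem_II_iff] at hxk hyk
    rw [hxk, hyk]
  have hm : ∀ m ≤ n, dy m x = dy m y := fun m hmn => dy_eq_of_floor (floor_coarse hmn hfl)
  obtain ⟨h1, h2, h3⟩ := hx
  refine ⟨?_, ?_, ?_⟩
  · have h0 := floor_coarse (Nat.zero_le n) hfl
    simp only [pow_zero, one_mul] at h0
    have hx0 : ⌊x⌋ = 0 := by
      rw [Int.floor_eq_iff]
      simpa using h1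
    rw [hx0] at h0
    have := Int.floor_eq_iff.mp h0.symm
    simpa using this
  · rw [← hm n le_rfl]
    exact h2
  · intro m hmn
    rw [← hm m hmn.le]
    exact h3 m hmn

theorem PolA_disj {μ : Measure ℝ} {s M : ℝ} {n m : ℕ} {x : ℝ} (hn : x ∈ PolA μ s M n)
    (hm : x ∈ PolA μ s M m) : n = m := by
  by_contra hne
  rcases lt_or_gt_of_ne hne with h | h
  · exact absurd hn.2.1 (not_le.mpr (hm.2.2 n h))
  · exact absurd hm.2.1 (not_le.mpr (hn.2.2 m h))

open Classical in
/-- the indices of the intervals of `PolA` -/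
noncomputable def PolS (μ : Measure ℝ) (s M : ℝ) (n : ℕ) : Finset ℕ :=
  (Finset.range (2 ^ n)).filter (fun k => II n k ⊆ PolA μ s M n)

theorem mem_PolS {μ : Measure ℝ} {s M : ℝ} {n k : ℕ} :
    k ∈ PolS μ s M n ↔ k < 2 ^ n ∧ II n k ⊆ PolA μ s M n := by
  classical
  unfold PolS
  rw [Finset.mem_filter, Finset.mem_range]

theorem rpow_anti_of_nonpos {x y : ENNReal} {z : ℝ} (hz : z ≤ 0) (h : x ≤ y) : y ^ z ≤ x ^ z := by
  have h1 : x ^ (-z) ≤ y ^ (-z) := ENNReal.rpow_le_rpow h (by linarith)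
  have h2 : ∀ w : ENNReal, w ^ z = (w ^ (-z))⁻¹ := by
    intro w
    rw [← ENNReal.rpow_neg, neg_neg]
  rw [h2, h2]
  exact ENNReal.inv_le_inv.mpr h1

theorem PolA_cover {μ : Measure ℝ} {s M : ℝ} {n : ℕ} :
    PolA μ s M n ⊆ ⋃ k ∈ PolS μ s M n, II n k := by
  intro x hx
  obtain ⟨k, hk, hxk⟩ := exists_II (n := n) hx.1
  simp only [mem_iUnion]
  exact ⟨k, mem_PolS.mpr ⟨hk, fun y hy => PolA_of_mem hx hxk hy⟩, hxk⟩

theorem PolS_disj (μ : Measure ℝ) (s M : ℝ) (N : ℕ) :
    (↑((Finset.range N).sigma (fun n => PolS μ s M n)) : Set (Σ _ : ℕ, ℕ)).PairwiseDisjoint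
      (fun t => II t.1 t.2) := by
  rintro ⟨n, k⟩ ht ⟨m, j⟩ hu hne
  rw [Finset.mem_coe, Finset.mem_sigma] at ht hu
  rw [Function.onFun, Set.disjoint_left]
  intro x hx hy
  apply hne
  simp only at hx hy ht hu
  have h1 : x ∈ PolA μ s M n := (mem_PolS.mp ht.2).2 hx
  have h2 : x ∈ PolA μ s M m := (mem_PolS.mp hu.2).2 hy
  have h3 := PolA_disj h1 h2
  subst h3
  rw [mem_II_iff] at hx hy
  rw [hx] at hy
  have : k = j := by exact_mod_cast hy
  rw [this]

/-- lower bound for the energy on one dyadic interval -/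
theorem Pol_int (s : ℝ) (hs0 : 0 ≤ s) (hs1 : s < 1) (ω : Measure ℝ) [IsFiniteMeasure ω]
    {n k : ℕ} (hk : k < 2 ^ n) :
    ENNReal.ofReal (ω.real (II n k) ^ 2 / Real.exp (-(n * (s * Real.log 2)))) ≤
      ∫⁻ x in II n k, (∫⁻ y in Icc (0 : ℝ) 1, kern ((1 - s) / 2) x y ∂ω) ^ 2 := by
  set r : ℝ := 1 / 2 ^ n with hr
  have hrpos : 0 < r := by positivity
  set τ : ℝ := (1 - s) / 2 with hτ
  have hτ1 : τ - 1 ≤ 0 := by rw [hτ]; linarith
  have hIsub : II n k ⊆ Icc (0 : ℝ) 1 := (II_subset hk).trans Ico_subset_Icc_self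
  have hlow : ∀ x ∈ II n k, ENNReal.ofReal (r ^ (τ - 1) * ω.real (II n k)) ≤
      ∫⁻ y in Icc (0 : ℝ) 1, kern τ x y ∂ω := by
    intro x hx
    have h1 : ∀ y ∈ II n k, ENNReal.ofReal (r ^ (τ - 1)) ≤ kern τ x y := by
      intro y hy
      unfold kern
      rw [← ENNReal.ofReal_rpow_of_pos hrpos]
      apply rpow_anti_of_nonpos hτ1
      apply ENNReal.ofReal_le_ofReal
      unfold II at hx hy
      have e : ((k : ℝ) + 1) / 2 ^ n = (k : ℝ) / 2 ^ n + r := by
        rw [hr]
        ring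
      rw [e] at hx hy
      rw [abs_le]
      constructor
      · linarith [hx.1, hy.2]
      · linarith [hx.2, hy.1]
    calc ENNReal.ofReal (r ^ (τ - 1) * ω.real (II n k))
        = ∫⁻ y in II n k, ENNReal.ofReal (r ^ (τ - 1)) ∂ω := by
          rw [setLIntegral_const, ENNReal.ofReal_mul (by positivity), ofReal_measureReal]
      _ ≤ ∫⁻ y in II n k, kern τ x y ∂ω := setLIntegral_mono' (measurableSet_II n k) h1
      _ ≤ ∫⁻ y in Icc (0 : ℝ) 1, kern τ x y ∂ω := lintegral_mono_set hIsub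
  have hw : 0 ≤ ω.real (II n k) := measureReal_nonneg
  have hvol : volume (II n k) = ENNReal.ofReal r := by
    unfold II
    rw [Real.volume_Ico]
    congr 1
    rw [hr]
    ring
  have hexp : Real.exp (-(n * (s * Real.log 2))) = r ^ s := by
    rw [hr, Real.rpow_def_of_pos (by positivity)]
    congr 1
    rw [one_div, Real.log_inv, Real.log_pow]
    ring
  have hval : ω.real (II n k) ^ 2 / Real.exp (-(n * (s * Real.log 2))) =
      (r ^ (τ - 1) * ω.real (II n k)) ^ 2 * r := by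
    rw [hexp]
    have h1 : (r ^ (τ - 1)) ^ 2 * r = (r ^ s)⁻¹ := by
      rw [← Real.rpow_natCast, ← Real.rpow_mul hrpos.le, ← Real.rpow_neg hrpos.le]
      nth_rewrite 2 [← Real.rpow_one r]
      rw [← Real.rpow_add hrpos]
      congr 1
      rw [hτ]
      push_cast
      ring
    rw [mul_pow, div_eq_mul_inv, ← h1]
    ring
  rw [hval, ENNReal.ofReal_mul (by positivity), ← hvol, ← setLIntegral_const]
  apply setLIntegral_mono' (measurableSet_II n k)
  intro x hx
  rw [ENNReal.ofReal_pow (by positivity)]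
  gcongr
  exact hlow x hx

theorem Pol_main (μ : Measure ℝ) [IsProbabilityMeasure μ] (s : ℝ) (hs0 : 0 ≤ s) (hs1 : s < 1)
    (ω : Measure ℝ) [IsFiniteMeasure ω] (hE : energy ((1 - s) / 2) ω ≠ ⊤) (M : ℝ) (hM : 0 < M)
    (N : ℕ) :
    ∑ t ∈ (Finset.range N).sigma (fun n => PolS μ s M n), ω.real (II t.1 t.2) ≤
      √((1 / M) * (energy ((1 - s) / 2) ω).toReal) := by
  set T := (Finset.range N).sigma (fun n => PolS μ s M n) with hT
  have hmemT : ∀ t ∈ T, t.2 < 2 ^ t.1 ∧ II t.1 t.2 ⊆ PolA μ s M t.1 := by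
    intro t ht
    rw [hT, Finset.mem_sigma] at ht
    exact mem_PolS.mp ht.2
  have hdis := PolS_disj μ s M N
  rw [← hT] at hdis
  set w : (Σ _ : ℕ, ℕ) → ℝ := fun t => Real.exp (-(t.1 * (s * Real.log 2))) with hw
  have hwpos : ∀ t ∈ T, 0 < w t := fun t _ => Real.exp_pos _
  -- energy
  have h1 : ∑ t ∈ T, ω.real (II t.1 t.2) ^ 2 / w t ≤ (energy ((1 - s) / 2) ω).toReal := by
    rw [← ENNReal.ofReal_le_iff_le_toReal hE]
    rw [ENNReal.ofReal_sum_of_nonneg fun t _ => by positivity]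
    calc ∑ t ∈ T, ENNReal.ofReal (ω.real (II t.1 t.2) ^ 2 / w t)
        ≤ ∑ t ∈ T, ∫⁻ x in II t.1 t.2,
          (∫⁻ y in Icc (0 : ℝ) 1, kern ((1 - s) / 2) x y ∂ω) ^ 2 :=
          Finset.sum_le_sum fun t ht => Pol_int s hs0 hs1 ω (hmemT t ht).1
      _ = ∫⁻ x in ⋃ t ∈ T, II t.1 t.2,
          (∫⁻ y in Icc (0 : ℝ) 1, kern ((1 - s) / 2) x y ∂ω) ^ 2 := by
          rw [lintegral_biUnion_finset hdis fun t _ => measurableSet_II _ _]
      _ ≤ energy ((1 - s) / 2) ω := by
          unfold energy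
          apply lintegral_mono_set
          intro x hx
          simp only [mem_iUnion] at hx
          obtain ⟨t, ht, hxt⟩ := hx
          exact Ico_subset_Icc_self (II_subset (hmemT t ht).1 hxt)
  -- weights
  have h2 : ∑ t ∈ T, w t ≤ 1 / M := by
    have h3 : ∀ t ∈ T, w t ≤ (1 / M) * μ.real (II t.1 t.2) := by
      intro t ht
      have hx : ((t.2 : ℝ) / 2 ^ t.1) ∈ II t.1 t.2 := by
        unfold II
        refine ⟨le_rfl, ?_⟩
        have : (0 : ℝ) < 2 ^ t.1 := by positivity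
        rw [div_lt_div_iff_of_pos_right this]
        linarith
      have h4 := ((hmemT t ht).2 hx).2.1
      rw [dy_eq_II hx] at h4
      have h5 : w t * Real.exp (t.1 * (s * Real.log 2)) = 1 := by
        rw [hw]
        simp only
        rw [← Real.exp_add]
        simp
      have h6 : w t * M ≤ μ.real (II t.1 t.2) := by
        calc w t * M ≤ w t * (Real.exp (t.1 * (s * Real.log 2)) * μ.real (II t.1 t.2)) :=
              mul_le_mul_of_nonneg_left h4 (hwpos t ht).le
          _ = (w t * Real.exp (t.1 * (s * Real.log 2))) * μ.real (II t.1 t.2) := by ring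
          _ = μ.real (II t.1 t.2) := by rw [h5, one_mul]
      rw [one_div, ← div_eq_inv_mul, le_div_iff₀ hM]
      exact h6
    calc ∑ t ∈ T, w t ≤ ∑ t ∈ T, (1 / M) * μ.real (II t.1 t.2) := Finset.sum_le_sum h3
      _ = (1 / M) * ∑ t ∈ T, μ.real (II t.1 t.2) := by rw [Finset.mul_sum]
      _ = (1 / M) * μ.real (⋃ t ∈ T, II t.1 t.2) := by
          rw [measureReal_biUnion_finset hdis fun t _ => measurableSet_II _ _]
      _ ≤ (1 / M) * 1 := by
          apply mul_le_mul_of_nonneg_left measureReal_le_one (by positivity)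
      _ = 1 / M := mul_one _
  -- Cauchy-Schwarz
  have hEnn : 0 ≤ (energy ((1 - s) / 2) ω).toReal := ENNReal.toReal_nonneg
  apply Real.le_sqrt_of_sq_le
  rcases T.eq_empty_or_nonempty with hTe | hTne
  · rw [hTe]
    simp only [Finset.sum_empty]
    rw [zero_pow two_ne_zero]
    positivity
  have hwsum : 0 < ∑ t ∈ T, w t := Finset.sum_pos hwpos hTne
  have hcs := Finset.sq_sum_div_le_sum_sq_div T (fun t => ω.real (II t.1 t.2)) hwpos
  rw [div_le_iff₀ hwsum] at hcs
  calc (∑ t ∈ T, ω.real (II t.1 t.2)) ^ 2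
      ≤ (∑ t ∈ T, ω.real (II t.1 t.2) ^ 2 / w t) * ∑ t ∈ T, w t := hcs
    _ ≤ (energy ((1 - s) / 2) ω).toReal * (1 / M) := by
        apply mul_le_mul h1 h2 hwsum.le hEnn
    _ = _ := mul_comm _ _

theorem t_POL : S_POL := by
  intro μ hμ s hs0 hs1 K hK hKsub hheavy
  unfold Qap
  rw [← bot_eq_zero, iSup_eq_bot]
  intro ω
  rw [iSup_eq_bot]
  intro hω
  rw [iSup_eq_bot]
  rintro ⟨F, hF, hFK, hωF⟩
  rw [bot_eq_zero]
  by_cases hE : energy ((1 - s) / 2) ω = ⊤
  · rw [hE, ENNReal.div_top]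
  have hmain : ∀ M : ℝ, 0 < M → ω K ≤
      ENNReal.ofReal √((1 / M) * (energy ((1 - s) / 2) ω).toReal) := by
    intro M hM
    have hcov : K ⊆ ⋃ n, PolA μ s M n := by
      classical
      intro x hx
      have hex := hheavy x hx M
      rw [mem_iUnion]
      refine ⟨Nat.find hex, hKsub hx, Nat.find_spec hex, ?_⟩
      intro m hm
      exact not_le.mp (Nat.find_min hex hm)
    calc ω K ≤ ω (⋃ n, PolA μ s M n) := measure_mono hcov
      _ ≤ ∑' n, ω (PolA μ s M n) := measure_iUnion_le _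
      _ ≤ ENNReal.ofReal √((1 / M) * (energy ((1 - s) / 2) ω).toReal) := by
        apply ENNReal.tsum_le_of_sum_range_le
        intro N
        calc ∑ n ∈ Finset.range N, ω (PolA μ s M n)
            ≤ ∑ n ∈ Finset.range N, ∑ k ∈ PolS μ s M n, ω (II n k) := by
              apply Finset.sum_le_sum
              intro n _
              exact (measure_mono PolA_cover).trans (measure_biUnion_finset_le _ _)
          _ = ∑ t ∈ (Finset.range N).sigma (fun n => PolS μ s M n), ω (II t.1 t.2) := by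
              rw [Finset.sum_sigma]
          _ = ∑ t ∈ (Finset.range N).sigma (fun n => PolS μ s M n),
              ENNReal.ofReal (ω.real (II t.1 t.2)) := by
              apply Finset.sum_congr rfl
              intro t _
              rw [ofReal_measureReal]
          _ = ENNReal.ofReal (∑ t ∈ (Finset.range N).sigma (fun n => PolS μ s M n),
              ω.real (II t.1 t.2)) := by
              rw [ENNReal.ofReal_sum_of_nonneg fun t _ => measureReal_nonneg]
          _ ≤ _ := ENNReal.ofReal_le_ofReal (Pol_main μ s hs0 hs1 ω hE M hM N)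
  have hzero : ω K = 0 := by
    have hlim : Tendsto (fun n : ℕ => ENNReal.ofReal
        √((1 / ((n : ℝ) + 1)) * (energy ((1 - s) / 2) ω).toReal)) atTop (𝓝 0) := by
      have h1 : Tendsto (fun n : ℕ => (1 / ((n : ℝ) + 1)) *
          (energy ((1 - s) / 2) ω).toReal) atTop (𝓝 0) := by
        have := tendsto_one_div_add_atTop_nhds_zero_nat (𝕜 := ℝ)
        simpa using this.mul_const (energy ((1 - s) / 2) ω).toReal
      have h2 := (Real.continuous_sqrt.tendsto 0).comp h1
      rw [Real.sqrt_zero] at h2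
      have h3 := (ENNReal.continuous_ofReal.tendsto 0).comp h2
      rw [ENNReal.ofReal_zero] at h3
      exact h3
    have hle : ω K ≤ 0 := ge_of_tendsto' hlim fun n => hmain ((n : ℝ) + 1) (by positivity)
    exact nonpos_iff_eq_zero.mp hle
  rw [hzero]
  simp

end Pool.Agent.R979.MD
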