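import Pool.Agent.R979.MD.Stm

/-!
# Piece PSI of project MD (MP_19f6dc_an): two-step entropy gain
-/

set_option autoImplicit false

open MeasureTheory Set Filter Topology

namespace Pool.Agent.R979.MD

namespace PsiAux

theorem ent_eq (p : ℝ) : ent p = Real.binEntropy p := by
  unfold ent Real.binEntropy
  rw [Real.log_inv, Real.log_inv]
  ring

theorem ent_cont : Continuous ent := by
  have : ent = Real.binEntropy := funext ent_eq
  rw [this]
  exact Real.binEntropy_continuous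

theorem ent_le (p : ℝ) : ent p ≤ Real.log 2 := by
  rw [ent_eq]
  exact Real.binEntropy_le_log_two

theorem G0_sub {l g y : ℝ} (hl : 1 < l) : G0 l g y = (g - l) / (l - 1) + (1 / l) * (y - (g - l) / (l - 1)) := by
  unfold G0
  have h1 : l - 1 ≠ 0 := by linarith
  have h2 : l ≠ 0 := by linarith
  field_simp
  ring

theorem G1_sub {g q y : ℝ} (hy : y + g ≠ 0) : G1 g q y = (q - g) + ((g - 1) / (y + g)) * (y - (q - g)) := by
  unfold G1
  field_simp
  ring

/-- a strict convex combination of `y` and `r` -/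
theorem conv {a b r y t : ℝ} (hr : a ≤ r ∧ r ≤ b) (hy : a ≤ y ∧ y ≤ b) (h0 : 0 < t) (h1 : t < 1) :
    a ≤ r + t * (y - r) ∧ r + t * (y - r) ≤ b := by
  constructor
  · nlinarith [mul_nonneg h0.le (sub_nonneg.2 hy.1), mul_nonneg (sub_nonneg.2 h1.le) (sub_nonneg.2 hr.1)]
  · nlinarith [mul_nonneg h0.le (sub_nonneg.2 hy.2), mul_nonneg (sub_nonneg.2 h1.le) (sub_nonneg.2 hr.2)]

theorem conv_lt {a b r y t : ℝ} (hr : a ≤ r ∧ r ≤ b) (hy : a ≤ y ∧ y ≤ b) (h0 : 0 < t) (h1 : t < 1)
    (hne : y ≠ r) : a < r + t * (y - r) ∧ r + t * (y - r) < b := by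
  rcases lt_or_gt_of_ne hne with h | h
  · constructor
    · nlinarith [mul_pos (sub_pos.2 h1) (sub_pos.2 h)]
    · nlinarith [mul_pos h0 (sub_pos.2 h)]
  · constructor
    · nlinarith [mul_pos h0 (sub_pos.2 h)]
    · nlinarith [mul_pos (sub_pos.2 h1) (sub_pos.2 h)]

end PsiAux

open PsiAux

theorem t_PSI (hTH : S_TH) : S_PSI := by
  intro l g q hT hl hq hE
  obtain ⟨-, -, -, hTH4⟩ := hTH l g q hT
  obtain ⟨ha1, hge, hgt, -⟩ := hTH4 hl hq
  have hg : 1 < g := hT.2.1
  set a := aa l g q with ha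
  set b := bt l g q with hb
  set θ := theta0 l g q with hθ
  set ρ0 := (g - l) / (l - 1) with hρ0
  set ρ1 := q - g with hρ1
  have hr0 : a ≤ ρ0 ∧ ρ0 ≤ b :=
    ⟨(min_le_right _ _).trans (min_le_left _ _), (le_max_left _ _).trans (le_max_right _ _)⟩
  have hr1 : a ≤ ρ1 ∧ ρ1 ≤ b :=
    ⟨(min_le_right _ _).trans (min_le_right _ _), (le_max_right _ _).trans (le_max_right _ _)⟩
  have h00 : a ≤ 0 ∧ 0 ≤ b := ⟨min_le_left _ _, le_max_left _ _⟩
  have hyg : ∀ y ∈ Icc a b, 0 < y + g := fun y hy => by linarith [hy.1]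
  have ht0 : 0 < 1 / l ∧ 1 / l < 1 := by
    refine ⟨by positivity, ?_⟩
    rw [div_lt_one (by linarith)]; exact hl
  have ht1 : ∀ y ∈ Icc a b, 0 < (g - 1) / (y + g) ∧ (g - 1) / (y + g) < 1 := by
    intro y hy
    refine ⟨div_pos (by linarith) (hyg y hy), ?_⟩
    rw [div_lt_one (hyg y hy)]
    linarith [hy.1]
  have hG0 : ∀ y ∈ Icc a b, G0 l g y ∈ Icc a b := by
    intro y hy
    rw [G0_sub hl]
    exact conv hr0 hy ht0.1 ht0.2
  have hG1 : ∀ y ∈ Icc a b, G1 g q y ∈ Icc a b := by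
    intro y hy
    rw [G1_sub (hyg y hy).ne']
    exact conv hr1 hy (ht1 y hy).1 (ht1 y hy).2
  have hP0 : ∀ y ∈ Icc a b, 0 < P0 g y := fun y hy => div_pos (by linarith [hy.1]) (hyg y hy)
  have hP1 : ∀ y ∈ Icc a b, 0 < P1 g y := fun y hy => div_pos (by linarith) (hyg y hy)
  have hP01 : ∀ y ∈ Icc a b, P0 g y + P1 g y = 1 := by
    intro y hy
    unfold P0 P1
    rw [← add_div, div_eq_one_iff_eq (hyg y hy).ne']
    ring
  let Ψ : ℝ → ℝ := fun y => ent (P0 g y) + P0 g y * ent (P0 g (G0 l g y)) + P1 g y * ent (P0 g (G1 g q y))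
  have hpos : ∀ y ∈ Icc a b, 2 * θ < Ψ y := by
    intro y hy
    by_contra hle
    push Not at hle
    have m1 := hge y hy
    have m2 := hge _ (hG0 y hy)
    have m3 := hge _ (hG1 y hy)
    have p0 := hP0 y hy
    have p1 := hP1 y hy
    have p01 := hP01 y hy
    have e1 : P0 g y * (ent (P0 g (G0 l g y)) - θ) ≥ 0 := mul_nonneg p0.le (by linarith)
    have e2 : P1 g y * (ent (P0 g (G1 g q y)) - θ) ≥ 0 := mul_nonneg p1.le (by linarith)
    have hsum : (ent (P0 g y) - θ) + P0 g y * (ent (P0 g (G0 l g y)) - θ) +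
        P1 g y * (ent (P0 g (G1 g q y)) - θ) ≤ 0 := by
      have : (ent (P0 g y) - θ) + P0 g y * (ent (P0 g (G0 l g y)) - θ) +
        P1 g y * (ent (P0 g (G1 g q y)) - θ) = Ψ y - θ - (P0 g y + P1 g y) * θ := by
        simp only [Ψ]; ring
      rw [this, p01]; linarith
    have z1 : ent (P0 g y) = θ := by linarith
    have z2 : P0 g y * (ent (P0 g (G0 l g y)) - θ) = 0 := by linarith
    have z3 : P1 g y * (ent (P0 g (G1 g q y)) - θ) = 0 := by linarith
    have z2' : ent (P0 g (G0 l g y)) = θ := by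
      rcases mul_eq_zero.1 z2 with h | h
      · exact absurd h p0.ne'
      · linarith
    have z3' : ent (P0 g (G1 g q y)) = θ := by
      rcases mul_eq_zero.1 z3 with h | h
      · exact absurd h p1.ne'
      · linarith
    have y0 : y = ρ0 := by
      by_contra hne
      have := conv_lt hr0 hy ht0.1 ht0.2 hne
      rw [← G0_sub hl] at this
      exact absurd z2' (hgt _ this).ne'
    have y1 : y = ρ1 := by
      by_contra hne
      have := conv_lt hr1 hy (ht1 y hy).1 (ht1 y hy).2 hne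
      rw [← G1_sub (hyg y hy).ne'] at this
      exact absurd z3' (hgt _ this).ne'
    apply hE
    refine ⟨?_, ?_⟩
    · unfold r0 r1
      rw [if_neg (by linarith)]
      exact congrArg _ (y0.symm.trans y1)
    · have c1 : Pool.Agent.R979.MD.p0 g (r1 g q) = P0 g ρ1 := by
        unfold Pool.Agent.R979.MD.p0 r1 P0
        rw [if_neg (EReal.coe_ne_top _), EReal.toReal_coe]
      have c2 : Pool.Agent.R979.MD.p0 g 0 = P0 g 0 := by
        unfold Pool.Agent.R979.MD.p0 P0
        rw [if_neg (by exact EReal.zero_ne_top), EReal.toReal_zero]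
      rw [c1, c2, ← y1, z1]
      exact hge 0 h00
  have hcP0 : ContinuousOn (P0 g) (Icc a b) := by
    unfold P0
    exact ContinuousOn.div (by fun_prop) (by fun_prop) (fun y hy => (hyg y hy).ne')
  have hcP1 : ContinuousOn (P1 g) (Icc a b) := by
    unfold P1
    exact ContinuousOn.div (by fun_prop) (by fun_prop) (fun y hy => (hyg y hy).ne')
  have hcG0 : ContinuousOn (G0 l g) (Icc a b) := by
    unfold G0
    fun_prop
  have hcG1 : ContinuousOn (G1 g q) (Icc a b) := by
    unfold G1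
    exact ContinuousOn.div (by fun_prop) (by fun_prop) (fun y hy => (hyg y hy).ne')
  have hcΨ : ContinuousOn Ψ (Icc a b) := by
    have c1 : ContinuousOn (fun y => ent (P0 g y)) (Icc a b) := ent_cont.comp_continuousOn hcP0
    have c2 : ContinuousOn (fun y => ent (P0 g (G0 l g y))) (Icc a b) :=
      ent_cont.comp_continuousOn (hcP0.comp hcG0 hG0)
    have c3 : ContinuousOn (fun y => ent (P0 g (G1 g q y))) (Icc a b) :=
      ent_cont.comp_continuousOn (hcP0.comp hcG1 hG1)
    exact (c1.add (hcP0.mul c2)).add (hcP1.mul c3)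
  obtain ⟨y0, hy0, hmin⟩ := isCompact_Icc.exists_isMinOn (⟨0, h00⟩ : (Icc a b).Nonempty) hcΨ
  have hc : 0 < Ψ y0 - 2 * θ := by linarith [hpos y0 hy0]
  refine ⟨?_, Ψ y0 - 2 * θ, hc, fun y hy => ⟨hG0 y hy, hG1 y hy, ?_⟩⟩
  · have h1 := hpos 0 h00
    have p0 := hP0 0 h00
    have p1 := hP1 0 h00
    have p01 := hP01 0 h00
    have e1 := ent_le (P0 g 0)
    have e2 := mul_le_mul_of_nonneg_left (ent_le (P0 g (G0 l g 0))) p0.le
    have e3 := mul_le_mul_of_nonneg_left (ent_le (P0 g (G1 g q 0))) p1.le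
    have e4 : P0 g 0 * Real.log 2 + P1 g 0 * Real.log 2 = Real.log 2 := by
      rw [← add_mul, p01, one_mul]
    simp only [Ψ] at h1
    linarith
  · have : Ψ y0 ≤ Ψ y := hmin hy
    simp only [Ψ] at this ⊢
    linarith

end Pool.Agent.R979.MD
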