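import Pool.Agent.R979.MD.Stm

set_option autoImplicit false

open Set Filter Topology

namespace Pool.Agent.R979.MD

namespace RW

theorem bb_pos {p : ℝ} (h0 : 0 < p) (h1 : p < 1) : ∀ n k : ℕ, 0 < bb p n k := by
  intro n
  induction n with
  | zero => intro k; simp [bb]
  | succ n ih =>
    intro k
    simp only [bb]
    split_ifs
    · exact mul_pos h0 (ih _)
    · exact mul_pos (by linarith) (ih _)

/-- the walk -/
noncomputable def X (p : ℝ) (n k : ℕ) : ℝ := n * ent p + Real.log (bb p n k)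

noncomputable def E (p : ℝ) (n : ℕ) (φ : ℝ → ℝ) : ℝ :=
  ∑ k ∈ Finset.range (2 ^ n), bb p n k * φ (X p n k)

theorem E_rec {p : ℝ} (h0 : 0 < p) (h1 : p < 1) (n : ℕ) (φ : ℝ → ℝ) :
    E p (n + 1) φ = p * E p n (fun x => φ (x + (ent p + Real.log p))) +
      (1 - p) * E p n (fun x => φ (x + (ent p + Real.log (1 - p)))) := by
  unfold E
  rw [pow_succ, mul_two, Finset.sum_range_add, Finset.mul_sum, Finset.mul_sum]
  congr 1
  · apply Finset.sum_congr rfl
    intro k hk
    rw [Finset.mem_range] at hk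
    have hb : bb p (n + 1) k = p * bb p n k := by
      simp only [bb]; rw [if_pos hk]
    have hX : X p (n + 1) k = X p n k + (ent p + Real.log p) := by
      unfold X
      rw [hb, Real.log_mul h0.ne' (bb_pos h0 h1 n k).ne']
      push_cast; ring
    rw [hX, hb]; ring
  · apply Finset.sum_congr rfl
    intro k hk
    rw [Finset.mem_range] at hk
    have hb : bb p (n + 1) (2 ^ n + k) = (1 - p) * bb p n k := by
      simp only [bb]; rw [if_neg (by omega), Nat.add_sub_cancel_left]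
    have hX : X p (n + 1) (2 ^ n + k) = X p n k + (ent p + Real.log (1 - p)) := by
      unfold X
      rw [hb, Real.log_mul (by linarith) (bb_pos h0 h1 n k).ne']
      push_cast; ring
    rw [hX, hb]; ring

theorem E_add (p : ℝ) (n : ℕ) (φ ψ : ℝ → ℝ) :
    E p n (fun x => φ x + ψ x) = E p n φ + E p n ψ := by
  unfold E
  rw [← Finset.sum_add_distrib]
  apply Finset.sum_congr rfl
  intro k _; ring

theorem E_smul (p : ℝ) (n : ℕ) (c : ℝ) (φ : ℝ → ℝ) :
    E p n (fun x => c * φ x) = c * E p n φ := by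
  unfold E
  rw [Finset.mul_sum]
  apply Finset.sum_congr rfl
  intro k _; ring

theorem E_congr (p : ℝ) (n : ℕ) (φ ψ : ℝ → ℝ) (h : ∀ x, φ x = ψ x) : E p n φ = E p n ψ := by
  have : φ = ψ := funext h
  rw [this]

theorem moments {p : ℝ} (h0 : 0 < p) (h1 : p < 1) (u : ℝ) (hu : u = Real.log p - Real.log (1 - p))
    (n : ℕ) :
    E p n (fun _ => 1) = 1 ∧ E p n (fun x => x) = 0 ∧
    E p n (fun x => x ^ 2) = n * (p * (1 - p) * u ^ 2) ∧
    E p n (fun x => x ^ 4) = 3 * n * (n - 1) * (p * (1 - p) * u ^ 2) ^ 2 +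
      n * (p * (1 - p) ^ 4 * u ^ 4 + (1 - p) * p ^ 4 * u ^ 4) := by
  have d0 : ent p + Real.log p = (1 - p) * u := by unfold ent; rw [hu]; ring
  have d1 : ent p + Real.log (1 - p) = - p * u := by unfold ent; rw [hu]; ring
  induction n with
  | zero =>
    have hX : X p 0 0 = 0 := by simp [X, bb]
    refine ⟨?_, ?_, ?_, ?_⟩ <;> simp [E, hX, bb]
  | succ n ih =>
    obtain ⟨e0, e1, e2, e4⟩ := ih
    refine ⟨?_, ?_, ?_, ?_⟩
    · rw [E_rec h0 h1, e0]; ring
    · rw [E_rec h0 h1, d0, d1]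
      have : ∀ d : ℝ, E p n (fun x => x + d) = d := by
        intro d
        rw [E_add p n (fun x => x) (fun _ => d), e1,
          E_congr p n (fun _ => d) (fun _ => d * 1) (by intro x; ring),
          E_smul p n d (fun _ => 1), e0]; ring
      rw [this, this]; ring
    · rw [E_rec h0 h1, d0, d1]
      have : ∀ d : ℝ, E p n (fun x => (x + d) ^ 2) = n * (p * (1 - p) * u ^ 2) + d ^ 2 := by
        intro d
        rw [E_congr p n (fun x => (x + d) ^ 2) (fun x => x ^ 2 + (2 * d * x + d ^ 2 * 1))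
          (by intro x; ring), E_add p n (fun x => x ^ 2) (fun x => 2 * d * x + d ^ 2 * 1),
          E_add p n (fun x => 2 * d * x) (fun x => d ^ 2 * 1),
          E_smul p n (2 * d) (fun x => x), E_smul p n (d ^ 2) (fun _ => 1), e0, e1, e2]; ring
      rw [this, this]; push_cast; ring
    · rw [E_rec h0 h1, d0, d1]
      have : ∀ d : ℝ, E p n (fun x => (x + d) ^ 4) = E p n (fun x => x ^ 4) +
          (4 * d * E p n (fun x => x ^ 3) + (6 * d ^ 2 * (n * (p * (1 - p) * u ^ 2)) + d ^ 4)) := by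
        intro d
        rw [E_congr p n (fun x => (x + d) ^ 4)
          (fun x => x ^ 4 + (4 * d * x ^ 3 + (6 * d ^ 2 * x ^ 2 + (4 * d ^ 3 * x + d ^ 4 * 1))))
          (by intro x; ring),
          E_add p n (fun x => x ^ 4)
            (fun x => 4 * d * x ^ 3 + (6 * d ^ 2 * x ^ 2 + (4 * d ^ 3 * x + d ^ 4 * 1))),
          E_add p n (fun x => 4 * d * x ^ 3)
            (fun x => 6 * d ^ 2 * x ^ 2 + (4 * d ^ 3 * x + d ^ 4 * 1)),
          E_add p n (fun x => 6 * d ^ 2 * x ^ 2) (fun x => 4 * d ^ 3 * x + d ^ 4 * 1),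
          E_add p n (fun x => 4 * d ^ 3 * x) (fun x => d ^ 4 * 1),
          E_smul p n (4 * d) (fun x => x ^ 3), E_smul p n (6 * d ^ 2) (fun x => x ^ 2),
          E_smul p n (4 * d ^ 3) (fun x => x), E_smul p n (d ^ 4) (fun _ => 1), e0, e1, e2]; ring
      rw [this, this, e4]; push_cast; ring

theorem poly (K y : ℝ) (hK : 1 ≤ K) :
    2 * K * y + y ^ 2 - y ^ 4 / (2 * K) - 1 / 4 ≤
      if 1 / (4 * (2 * K + 1)) ≤ y then 2 * K + K * (2 * K + 1) ^ 2 / 2 else 0 := by
  have hK0 : 0 < K := by linarith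
  split_ifs with h
  · have h1 : 0 ≤ (y ^ 2 - K * (2 * K + 1)) ^ 2 / (2 * K) := by positivity
    have h2 : (y ^ 2 - K * (2 * K + 1)) ^ 2 / (2 * K) =
      y ^ 4 / (2 * K) - (2 * K + 1) * y ^ 2 + K * (2 * K + 1) ^ 2 / 2 := by
      field_simp; ring
    rw [h2] at h1
    have h3 : y ≤ 1 + y ^ 2 := by nlinarith
    have h4 : 2 * K * y ≤ 2 * K * (1 + y ^ 2) := by gcongr
    linarith
  · push Not at h
    rcases le_or_gt 0 y with hy | hy
    · have h1 : y * (4 * (2 * K + 1)) < 1 := by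
        rwa [lt_div_iff₀ (by positivity)] at h
      have h2 : 0 ≤ y ^ 4 / (2 * K) := by positivity
      have h3 : y ≤ 1 := by nlinarith
      nlinarith
    · have h1 : 2 * K * y + y ^ 2 - y ^ 4 / (2 * K) ≤ 0 := by
        rcases le_or_gt (-y) (2 * K) with h2 | h2
        · have h3 : 0 ≤ y ^ 4 / (2 * K) := by positivity
          nlinarith
        · have h3 : y ^ 2 ≤ y ^ 4 / (2 * K) := by
            rw [le_div_iff₀ (by positivity)]
            have h4 : 2 * K ≤ y ^ 2 := by nlinarith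
            have h5 : y ^ 2 * (2 * K) ≤ y ^ 2 * y ^ 2 := by gcongr
            calc y ^ 2 * (2 * K) ≤ y ^ 2 * y ^ 2 := h5
              _ = y ^ 4 := by ring
          nlinarith
      linarith

theorem aux3 (n v m4 K : ℝ) (hn1 : 1 < n) (hv0 : 0 < v) (hm40 : 0 ≤ m4) (hK : K = 3 + m4 / v ^ 2) :
    1 / (2 * K * (n * v) ^ 2) * (3 * n * (n - 1) * v ^ 2 + n * m4) ≤ 1 / 2 := by
  have hn0 : 0 < n := by linarith
  have hK0 : 0 < K := by rw [hK]; positivity
  rw [one_div_mul_eq_div, div_le_div_iff₀ (by positivity) (by norm_num)]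
  have h4 : K * v ^ 2 = 3 * v ^ 2 + m4 := by
    rw [hK]; field_simp
  have h5 : 2 * K * (n * v) ^ 2 = 2 * n ^ 2 * (3 * v ^ 2 + m4) := by
    rw [← h4]; ring
  rw [h5]
  have h6 : n * m4 ≤ n ^ 2 * m4 := by
    apply mul_le_mul_of_nonneg_right _ hm40
    nlinarith
  have h7 : 0 ≤ 3 * n * v ^ 2 := by positivity
  linarith

end RW

open RW in
theorem t_RW : S_RW := by
  intro p h0 h1 hp
  set u := Real.log p - Real.log (1 - p) with hu
  have hu0 : u ≠ 0 := by
    intro h
    have h2 : Real.log p = Real.log (1 - p) := by linarith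
    have h3 := Real.log_injOn_pos (show (0 : ℝ) < p from h0)
      (show (0 : ℝ) < 1 - p by linarith) h2
    apply hp; linarith
  have h1p : 0 < 1 - p := by linarith
  set v := p * (1 - p) * u ^ 2 with hv
  have hv0 : 0 < v := by positivity
  set m4 := p * (1 - p) ^ 4 * u ^ 4 + (1 - p) * p ^ 4 * u ^ 4 with hm4
  have hm40 : 0 ≤ m4 := by positivity
  set K := 3 + m4 / v ^ 2 with hK
  have hK1 : 1 ≤ K := by
    have : 0 ≤ m4 / v ^ 2 := by positivity
    linarith
  have hK0 : 0 < K := by linarith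
  refine ⟨(1 / 4) / (2 * K + K * (2 * K + 1) ^ 2 / 2), by positivity, ?_⟩
  intro a
  -- choice of n
  set δ := 1 / (4 * (2 * K + 1)) with hδ
  have hδ0 : 0 < δ := by positivity
  obtain ⟨n, hn⟩ := exists_nat_gt ((Real.log (max a 1) / δ) ^ 2 / v + 1)
  have hlog : 0 ≤ Real.log (max a 1) := Real.log_nonneg (le_max_right _ _)
  have hn1 : 1 < (n : ℝ) := by
    have : 0 ≤ (Real.log (max a 1) / δ) ^ 2 / v := by positivity
    linarith
  have hn0 : 0 < (n : ℝ) := by linarith
  refine ⟨n, ?_⟩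
  set σ := Real.sqrt (n * v) with hσ
  have hσ0 : 0 < σ := Real.sqrt_pos.2 (by positivity)
  have hσ2 : σ ^ 2 = n * v := Real.sq_sqrt (by positivity)
  have hlarge : Real.log (max a 1) ≤ δ * σ := by
    have h2 : (Real.log (max a 1) / δ) ^ 2 ≤ n * v := by
      have h3 : (Real.log (max a 1) / δ) ^ 2 / v ≤ n := by linarith
      rwa [div_le_iff₀ hv0] at h3
    have h3 : Real.log (max a 1) / δ ≤ σ := by
      rw [hσ]; exact Real.le_sqrt_of_sq_le h2
    rw [div_le_iff₀ hδ0] at h3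
    linarith
  obtain ⟨e0, e1, e2, e4⟩ := moments h0 h1 u hu n
  have key : 1 / 4 ≤ E p n (fun x => 2 * K * (x / σ) + (x / σ) ^ 2 - (x / σ) ^ 4 / (2 * K) - 1 / 4) := by
    rw [E_congr p n _ (fun x => (2 * K / σ) * x + ((1 / σ ^ 2) * x ^ 2 +
      ((-(1 / (2 * K * σ ^ 4))) * x ^ 4 + (-1 / 4) * 1))) (by intro x; field_simp; ring)]
    rw [E_add p n (fun x => (2 * K / σ) * x) (fun x => (1 / σ ^ 2) * x ^ 2 +
      ((-(1 / (2 * K * σ ^ 4))) * x ^ 4 + (-1 / 4) * 1)),
      E_add p n (fun x => (1 / σ ^ 2) * x ^ 2) (fun x =>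
      ((-(1 / (2 * K * σ ^ 4))) * x ^ 4 + (-1 / 4) * 1)),
      E_add p n (fun x => (-(1 / (2 * K * σ ^ 4))) * x ^ 4) (fun x => (-1 / 4) * 1),
      E_smul p n (2 * K / σ) (fun x => x), E_smul p n (1 / σ ^ 2) (fun x => x ^ 2),
      E_smul p n (-(1 / (2 * K * σ ^ 4))) (fun x => x ^ 4), E_smul p n (-1 / 4) (fun _ => 1),
      e0, e1, e2, e4, ← hv, ← hm4]
    have hs4 : σ ^ 4 = (n * v) ^ 2 := by
      calc σ ^ 4 = (σ ^ 2) ^ 2 := by ring
        _ = _ := by rw [hσ2]
    rw [hσ2, hs4]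
    have h2 : (1 : ℝ) / (n * v) * (n * v) = 1 := by
      rw [one_div, inv_mul_cancel₀ (by positivity)]
    have h3 : 1 / (2 * K * (n * v) ^ 2) * (3 * n * (n - 1) * v ^ 2 + n * m4) ≤ 1 / 2 :=
      aux3 n v m4 K hn1 hv0 hm40 hK
    rw [h2]
    linarith
  have hle : E p n (fun x => 2 * K * (x / σ) + (x / σ) ^ 2 - (x / σ) ^ 4 / (2 * K) - 1 / 4) ≤
      (2 * K + K * (2 * K + 1) ^ 2 / 2) * ∑ k ∈ (Finset.range (2 ^ n)).filter
    (fun k => a ≤ Real.exp (n * ent p) * bb p n k), bb p n k := by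
    unfold E
    rw [Finset.sum_filter, Finset.mul_sum]
    apply Finset.sum_le_sum
    intro k _
    have hb := bb_pos h0 h1 n k
    have h2 := poly K (X p n k / σ) hK1
    have h3 := mul_le_mul_of_nonneg_left h2 hb.le
    refine h3.trans ?_
    by_cases h4 : 1 / (4 * (2 * K + 1)) ≤ X p n k / σ
    · rw [if_pos h4]
      have h5 : a ≤ Real.exp (n * ent p) * bb p n k := by
        have h6 : δ * σ ≤ X p n k := by
          rwa [le_div_iff₀ hσ0] at h4
        have h7 : Real.log (max a 1) ≤ X p n k := hlarge.trans h6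
        have h8 : max a 1 ≤ Real.exp (X p n k) := by
          rw [← Real.log_le_iff_le_exp (lt_of_lt_of_le one_pos (le_max_right _ _))]
          exact h7
        have h9 : Real.exp (X p n k) = Real.exp (n * ent p) * bb p n k := by
          unfold X
          rw [Real.exp_add, Real.exp_log hb]
        rw [← h9]
        exact (le_max_left _ _).trans h8
      rw [if_pos h5]
      linarith
    · rw [if_neg h4]
      split_ifs
      · rw [mul_zero]; positivity
      · simp
  rw [div_le_iff₀ (by positivity)]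
  linarith

end Pool.Agent.R979.MD
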