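import Pool.Agent.R979.MD.Stm

/-!
Project MD (MP_19f6dc_an), piece TH (helper468): the entropy facts about `theta0`.
-/

set_option autoImplicit false

open MeasureTheory Set Filter Topology

namespace Pool.Agent.R979.MD

namespace TH

lemma ent_eq (p : ℝ) : ent p = Real.binEntropy p := by
  unfold ent Real.binEntropy
  rw [Real.log_inv, Real.log_inv]
  ring

lemma ent_nonneg {p : ℝ} (h0 : 0 ≤ p) (h1 : p ≤ 1) : 0 ≤ ent p := by
  rw [ent_eq]
  exact Real.binEntropy_nonneg h0 h1

lemma ent_le (p : ℝ) : ent p ≤ Real.log 2 := by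
  rw [ent_eq]
  exact Real.binEntropy_le_log_two

lemma alpha_ge {l g q : ℝ} (h : Trap l g q) : ((-1 : ℝ) : EReal) ≤ alpha l g q := by
  obtain ⟨h1, h2, h3, h4, h5⟩ := h
  unfold alpha
  refine le_min ?_ (le_min ?_ ?_)
  · rw [← EReal.coe_zero, EReal.coe_le_coe_iff]
    norm_num
  · unfold r0
    split_ifs with hl
    · exact le_top
    · rw [EReal.coe_le_coe_iff]
      have hl' : 0 < l - 1 := sub_pos.2 (lt_of_le_of_ne h4 (Ne.symm hl))
      rw [le_div_iff₀ hl']
      linarith
  · unfold r1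
    rw [EReal.coe_le_coe_iff]
    linarith

lemma p0_mem {g : ℝ} (hg : 1 < g) {y : EReal} (hy : ((-1 : ℝ) : EReal) ≤ y) :
    0 ≤ p0 g y ∧ p0 g y ≤ 1 := by
  unfold p0
  split_ifs with ht
  · norm_num
  · have hb : y ≠ ⊥ := by
      rintro rfl
      exact absurd hy (not_le.2 (EReal.bot_lt_coe _))
    lift y to ℝ using ⟨ht, hb⟩
    rw [EReal.coe_le_coe_iff] at hy
    rw [EReal.toReal_coe]
    have hd : 0 < y + g := by linarith
    constructor
    · exact div_nonneg (by linarith) hd.le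
    · rw [div_le_one hd]
      linarith

lemma zero_mem (l g q : ℝ) : (0 : EReal) ∈ Icc (alpha l g q) (beta l g q) :=
  ⟨min_le_left _ _, le_max_left _ _⟩

lemma bdd {l g q : ℝ} (h : Trap l g q) :
    BddBelow ((fun y : EReal => ent (p0 g y)) '' Icc (alpha l g q) (beta l g q)) := by
  refine ⟨0, ?_⟩
  rintro _ ⟨y, hy, rfl⟩
  have := p0_mem h.2.1 (le_trans (alpha_ge h) hy.1)
  exact ent_nonneg this.1 this.2

lemma th_le {l g q : ℝ} (h : Trap l g q) {y : EReal} (hy : y ∈ Icc (alpha l g q) (beta l g q)) :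
    theta0 l g q ≤ ent (p0 g y) :=
  csInf_le (bdd h) ⟨y, hy, rfl⟩

lemma th_nonneg {l g q : ℝ} (h : Trap l g q) : 0 ≤ theta0 l g q := by
  refine le_csInf ⟨_, 0, zero_mem l g q, rfl⟩ ?_
  rintro _ ⟨y, hy, rfl⟩
  have := p0_mem h.2.1 (le_trans (alpha_ge h) hy.1)
  exact ent_nonneg this.1 this.2

lemma alpha_eq {l g q : ℝ} (hl : l ≠ 1) : alpha l g q = ((aa l g q : ℝ) : EReal) := by
  unfold alpha aa r0 r1
  rw [if_neg hl, EReal.coe_strictMono.monotone.map_min, EReal.coe_strictMono.monotone.map_min,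
    EReal.coe_zero]

lemma beta_eq {l g q : ℝ} (hl : l ≠ 1) : beta l g q = ((bt l g q : ℝ) : EReal) := by
  unfold beta bt r0 r1
  rw [if_neg hl, EReal.coe_strictMono.monotone.map_max, EReal.coe_strictMono.monotone.map_max,
    EReal.coe_zero]

lemma p0_coe (g y : ℝ) : p0 g (y : EReal) = P0 g y := by
  unfold p0 P0
  rw [if_neg (EReal.coe_ne_top y), EReal.toReal_coe]

lemma P0_mem {g y : ℝ} (hg : 1 < g) (hy : -1 ≤ y) : P0 g y ∈ Icc (0 : ℝ) 1 := by
  unfold P0
  have hd : 0 < y + g := by linarith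
  refine ⟨div_nonneg (by linarith) hd.le, ?_⟩
  rw [div_le_one hd]
  linarith

lemma P0_lt {g x y : ℝ} (hg : 1 < g) (hx : -1 ≤ x) (hxy : x < y) : P0 g x < P0 g y := by
  unfold P0
  rw [div_lt_div_iff₀ (by linarith) (by linarith)]
  nlinarith

lemma P0_le {g x y : ℝ} (hg : 1 < g) (hx : -1 ≤ x) (hxy : x ≤ y) : P0 g x ≤ P0 g y := by
  rcases hxy.eq_or_lt with rfl | h
  · exact le_rfl
  · exact (P0_lt hg hx h).le

end TH

open TH in
theorem t_TH : S_TH := by
  intro l g q h
  have h' := h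
  obtain ⟨h1, h2, h3, h4, h5⟩ := h'
  have h0 := th_nonneg h
  refine ⟨h0, le_trans (th_le h (zero_mem l g q)) (ent_le _), ?_, ?_⟩
  · rintro (hl | hq)
    · have hm : (⊤ : EReal) ∈ Icc (alpha l g q) (beta l g q) := by
        refine ⟨le_top, ?_⟩
        unfold beta r0
        rw [if_pos hl]
        simp
      have h6 := th_le h hm
      have e : ent (p0 g ⊤) = 0 := by
        unfold p0
        rw [if_pos rfl, ent_eq, Real.binEntropy_one]
      rw [e] at h6
      exact le_antisymm h6 h0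
    · have hm : ((-1 : ℝ) : EReal) ∈ Icc (alpha l g q) (beta l g q) := by
        refine ⟨?_, ?_⟩
        · refine le_trans (min_le_right _ _) (le_trans (min_le_right _ _) ?_)
          unfold r1
          rw [EReal.coe_le_coe_iff]
          linarith
        · refine le_trans ?_ (le_max_left _ _)
          rw [← EReal.coe_zero, EReal.coe_le_coe_iff]
          norm_num
      have h6 := th_le h hm
      have e : ent (p0 g ((-1 : ℝ) : EReal)) = 0 := by
        rw [p0_coe]
        unfold P0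
        rw [ent_eq]
        norm_num
      rw [e] at h6
      exact le_antisymm h6 h0
  · intro hl hq
    have hl1 : l ≠ 1 := ne_of_gt hl
    have ha : -1 < aa l g q := by
      unfold aa
      refine lt_min (by norm_num) (lt_min ?_ (by linarith))
      rw [lt_div_iff₀ (by linarith)]
      linarith
    have ha0 : aa l g q ≤ 0 := min_le_left _ _
    have hb0 : 0 ≤ bt l g q := le_max_left _ _
    have hle : ∀ y ∈ Icc (aa l g q) (bt l g q), theta0 l g q ≤ ent (P0 g y) := by
      intro y hy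
      have hm : ((y : ℝ) : EReal) ∈ Icc (alpha l g q) (beta l g q) := by
        rw [alpha_eq hl1, beta_eq hl1]
        exact ⟨EReal.coe_le_coe_iff.2 hy.1, EReal.coe_le_coe_iff.2 hy.2⟩
      have := th_le h hm
      rwa [p0_coe] at this
    have hA : P0 g (aa l g q) ∈ Icc (0 : ℝ) 1 := P0_mem h2 ha.le
    have hB : P0 g (bt l g q) ∈ Icc (0 : ℝ) 1 := P0_mem h2 (by linarith)
    have hab : aa l g q ≤ bt l g q := le_trans ha0 hb0
    refine ⟨ha, hle, ?_, ?_⟩
    · intro y hy
      have hlt : aa l g q < bt l g q := lt_trans hy.1 hy.2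
      have hPlt : P0 g (aa l g q) < P0 g (bt l g q) := P0_lt h2 ha.le hlt
      have hy1 : P0 g y ∈ openSegment ℝ (P0 g (aa l g q)) (P0 g (bt l g q)) := by
        rw [openSegment_eq_Ioo hPlt]
        exact ⟨P0_lt h2 ha.le hy.1, P0_lt h2 (by linarith [hy.1]) hy.2⟩
      have h6 := Real.strictConcave_binEntropy.lt_on_openSegment hA hB hPlt.ne hy1
      rw [← ent_eq, ← ent_eq, ← ent_eq] at h6
      refine lt_of_le_of_lt (le_min ?_ ?_) h6
      · exact hle _ ⟨le_rfl, hab⟩
      · exact hle _ ⟨hab, le_rfl⟩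
    · have hmin : min (ent (P0 g (aa l g q))) (ent (P0 g (bt l g q))) ≤ theta0 l g q := by
        refine le_csInf ⟨_, 0, zero_mem l g q, rfl⟩ ?_
        rintro _ ⟨y, hy, rfl⟩
        rw [alpha_eq hl1, beta_eq hl1] at hy
        have ht : y ≠ ⊤ := ne_of_lt (lt_of_le_of_lt hy.2 (EReal.coe_lt_top _))
        have hb : y ≠ ⊥ := ne_of_gt (lt_of_lt_of_le (EReal.bot_lt_coe _) hy.1)
        lift y to ℝ using ⟨ht, hb⟩
        rw [mem_Icc, EReal.coe_le_coe_iff, EReal.coe_le_coe_iff] at hy
        have hz : P0 g y ∈ Icc (P0 g (aa l g q)) (P0 g (bt l g q)) :=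
          ⟨P0_le h2 ha.le hy.1, P0_le h2 (by linarith [hy.1]) hy.2⟩
        have h6 := Real.strictConcave_binEntropy.concaveOn.min_le_of_mem_Icc hA hB hz
        rw [← ent_eq, ← ent_eq, ← ent_eq] at h6
        simp only
        rw [p0_coe]
        exact h6
      have hA' := hle _ ⟨le_rfl, hab⟩
      have hB' := hle _ ⟨hab, le_rfl⟩
      rcases min_choice (ent (P0 g (aa l g q))) (ent (P0 g (bt l g q))) with e | e
      · left
        rw [e] at hmin
        exact le_antisymm hA' hmin
      · right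
        rw [e] at hmin
        exact le_antisymm hB' hmin

end Pool.Agent.R979.MD
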