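import Pool.Agent.R979.MD.Stm

/-! MD-TREE: recursion for the masses (helper45). -/

set_option autoImplicit false

open MeasureTheory Set Filter Topology

namespace Pool.Agent.R979.MD

namespace TREE

/-- The Moebius change of the state. -/
noncomputable def N (y x : ℝ) : ℝ := (1 + y) * x / (1 + y * x)

lemma N_zero (x : ℝ) : N 0 x = x := by simp [N]

lemma den_pos {y x : ℝ} (hy : -1 < y) (h0 : 0 ≤ x) (h1 : x ≤ 1) : 0 < 1 + y * x := by
  rcases h0.eq_or_lt with h | h
  · rw [← h]; norm_num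
  · have : 0 < x * (1 + y) := mul_pos h (by linarith)
    nlinarith

lemma comb_pos {a b x : ℝ} (ha : 0 < a) (hb : 0 < b) (h0 : 0 ≤ x) (h1 : x ≤ 1) :
    0 < (a - b) * x + b := by
  rcases h0.eq_or_lt with h | h
  · rw [← h]; simpa using hb
  · have h2 : 0 < a * x := mul_pos ha h
    have h3 : 0 ≤ b * (1 - x) := mul_nonneg hb.le (by linarith)
    nlinarith

lemma auxA {D Q l w x y : ℝ} (hD : D ≠ 0) (hQ : Q ≠ 0) (hl : l ≠ 0) (hw : w ≠ 0) :
    (1 + y) * (x / D) / (Q / D) = (y + 1) / w * (w / l * x / (Q / l)) := by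
  have h1 : (1 + y) * (x / D) / (Q / D) = (1 + y) * x / Q := by field_simp
  have h2 : (y + 1) / w * (w / l * x / (Q / l)) = (y + 1) * x / Q := by field_simp
  rw [h1, h2, add_comm]

lemma auxB {A E Q w x y g q : ℝ} (hE : E ≠ 0) (hQ : Q ≠ 0) (hw : w ≠ 0)
    (h : A * w = Q + (g - 1) * q * x) :
    (1 + y) * (A / E) / (Q / E) = (y + 1) / w + (g - 1) / w * (q * (y + 1) / w * x / (Q / w)) := by
  have h1 : (1 + y) * (A / E) / (Q / E) = (1 + y) * A / Q := by field_simp
  have h2 : (y + 1) / w + (g - 1) / w * (q * (y + 1) / w * x / (Q / w)) =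
      ((y + 1) * Q + (g - 1) * q * (y + 1) * x) / (w * Q) := by field_simp
  rw [h1, h2, div_eq_div_iff hQ (mul_ne_zero hw hQ)]
  linear_combination (1 + y) * Q * h

lemma idA {l g y x : ℝ} (hl : 0 < l) (hg : 1 < g) (hy : -1 < y) (h0 : 0 ≤ x) (h1 : x ≤ 1) :
    N y (F0 l g x) = P0 g y * N (G0 l g y) x := by
  have hD : 0 < (g - l) * x + l := comb_pos (by linarith) hl h0 h1
  have hyg : 0 < y + g := by linarith
  have hG : -1 < G0 l g y := by
    have : G0 l g y + 1 = (y + g) / l := by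
      unfold G0; field_simp; ring
    have h2 : 0 < (y + g) / l := div_pos hyg hl
    linarith
  have hden : 0 < 1 + G0 l g y * x := den_pos hG h0 h1
  have e1 : 1 + G0 l g y * x = (l + (y + g - l) * x) / l := by
    unfold G0; field_simp
  have hQ : 0 < l + (y + g - l) * x := by
    have := mul_pos hden hl
    rw [e1, div_mul_cancel₀ _ hl.ne'] at this
    exact this
  have e2 : 1 + G0 l g y = (y + g) / l := by
    unfold G0; field_simp; ring
  have e3 : 1 + y * (x / ((g - l) * x + l)) = (l + (y + g - l) * x) / ((g - l) * x + l) := by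
    rw [eq_div_iff hD.ne', add_mul, mul_assoc, div_mul_cancel₀ _ hD.ne']; ring
  unfold N F0 P0
  rw [e1, e2, e3]
  exact auxA hD.ne' hQ.ne' hl.ne' hyg.ne'

lemma idB {g q y x : ℝ} (hq : 0 < q) (hg : 1 < g) (hy : -1 < y) (h0 : 0 ≤ x) (h1 : x ≤ 1) :
    N y (F1 g q x) = P0 g y + P1 g y * N (G1 g q y) x := by
  have hE : 0 < (q - g) * x + g := comb_pos hq (by linarith) h0 h1
  have hyg : 0 < y + g := by linarith
  have e2 : 1 + G1 g q y = q * (y + 1) / (y + g) := by
    unfold G1; field_simp; ring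
  have hG : -1 < G1 g q y := by
    have h2 : 0 < q * (y + 1) / (y + g) := div_pos (mul_pos hq (by linarith)) hyg
    linarith
  have hden : 0 < 1 + G1 g q y * x := den_pos hG h0 h1
  have e1 : 1 + G1 g q y * x = ((y + g) + (y * (q - 1) + (q - g)) * x) / (y + g) := by
    unfold G1; field_simp
  have hQ : 0 < (y + g) + (y * (q - 1) + (q - g)) * x := by
    have := mul_pos hden hyg
    rw [e1, div_mul_cancel₀ _ hyg.ne'] at this
    exact this
  have e3 : 1 + y * (((q - 1) * x + 1) / ((q - g) * x + g)) =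
      ((y + g) + (y * (q - 1) + (q - g)) * x) / ((q - g) * x + g) := by
    rw [eq_div_iff hE.ne', add_mul, mul_assoc, div_mul_cancel₀ _ hE.ne']; ring
  unfold N F1 P0 P1
  rw [e1, e2, e3]
  exact auxB hE.ne' hQ.ne' hyg.ne' (by ring)

lemma key {l g q : ℝ} (hT : Trap l g q) {f : ℝ → ℝ} (hf : IsDeRham l g q f) (n : ℕ) :
    ∀ (y : ℝ), -1 < y → ∀ k : ℕ, k < 2 ^ n →
      N y (f (((k : ℝ) + 1) / 2 ^ n)) - N y (f ((k : ℝ) / 2 ^ n)) = mm l g q n y k := by
  obtain ⟨hl, hg, hq, _, _⟩ := hT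
  obtain ⟨hmono, _, hf0, hf1, hF⟩ := hf
  have hrange : ∀ x ∈ Icc (0 : ℝ) 1, 0 ≤ f x ∧ f x ≤ 1 := by
    intro x hx
    constructor
    · rw [← hf0]; exact hmono.monotoneOn (left_mem_Icc.mpr zero_le_one) hx hx.1
    · rw [← hf1]; exact hmono.monotoneOn hx (right_mem_Icc.mpr zero_le_one) hx.2
  induction n with
  | zero =>
    intro y hy k hk
    have hk0 : k = 0 := by simpa using hk
    subst hk0
    have : (1 : ℝ) + y ≠ 0 := by linarith
    simp [N, mm, hf0, hf1, this]
  | succ n ih =>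
    intro y hy k hk
    have hyg : 0 < y + g := by linarith
    have h2n : (0 : ℝ) < 2 ^ n := by positivity
    by_cases hkn : k < 2 ^ n
    · have hG : -1 < G0 l g y := by
        have : G0 l g y + 1 = (y + g) / l := by unfold G0; field_simp; ring
        have h2 : 0 < (y + g) / l := div_pos hyg hl
        linarith
      have hkr : (k : ℝ) + 1 ≤ 2 ^ n := by exact_mod_cast hkn
      have hx1 : (k : ℝ) / 2 ^ n ∈ Icc (0 : ℝ) 1 :=
        ⟨by positivity, (div_le_one h2n).mpr (by linarith)⟩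
      have hx2 : ((k : ℝ) + 1) / 2 ^ n ∈ Icc (0 : ℝ) 1 :=
        ⟨by positivity, (div_le_one h2n).mpr hkr⟩
      have e1 : (k : ℝ) / 2 ^ (n + 1) = ((k : ℝ) / 2 ^ n) / 2 := by rw [pow_succ]; field_simp
      have e2 : ((k : ℝ) + 1) / 2 ^ (n + 1) = (((k : ℝ) + 1) / 2 ^ n) / 2 := by
        rw [pow_succ]; field_simp
      rw [e1, e2, (hF _ hx1).1, (hF _ hx2).1,
        idA hl hg hy (hrange _ hx1).1 (hrange _ hx1).2,
        idA hl hg hy (hrange _ hx2).1 (hrange _ hx2).2, ← mul_sub, ih _ hG k hkn]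
      simp only [mm, if_pos hkn]
    · have hG : -1 < G1 g q y := by
        have e2 : 1 + G1 g q y = q * (y + 1) / (y + g) := by unfold G1; field_simp; ring
        have h2 : 0 < q * (y + 1) / (y + g) := div_pos (mul_pos hq (by linarith)) hyg
        linarith
      obtain ⟨j, rfl⟩ := Nat.exists_eq_add_of_le (not_lt.mp hkn)
      have hj : j < 2 ^ n := by rw [pow_succ] at hk; omega
      have hjr : (j : ℝ) + 1 ≤ 2 ^ n := by exact_mod_cast hj
      have hx1 : (j : ℝ) / 2 ^ n ∈ Icc (0 : ℝ) 1 :=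
        ⟨by positivity, (div_le_one h2n).mpr (by linarith)⟩
      have hx2 : ((j : ℝ) + 1) / 2 ^ n ∈ Icc (0 : ℝ) 1 :=
        ⟨by positivity, (div_le_one h2n).mpr hjr⟩
      have e1 : ((2 ^ n + j : ℕ) : ℝ) / 2 ^ (n + 1) = ((j : ℝ) / 2 ^ n + 1) / 2 := by
        rw [pow_succ]; push_cast; field_simp; ring
      have e2 : (((2 ^ n + j : ℕ) : ℝ) + 1) / 2 ^ (n + 1) = (((j : ℝ) + 1) / 2 ^ n + 1) / 2 := by
        rw [pow_succ]; push_cast; field_simp; ring
      rw [e1, e2, (hF _ hx1).2, (hF _ hx2).2,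
        idB hq hg hy (hrange _ hx1).1 (hrange _ hx1).2,
        idB hq hg hy (hrange _ hx2).1 (hrange _ hx2).2, add_sub_add_left_eq_sub, ← mul_sub,
        ih _ hG j hj]
      simp only [mm, if_neg hkn, Nat.add_sub_cancel_left]

end TREE

theorem t_TREE : S_TREE := by
  intro l g q hT f hf n k hk
  have := TREE.key hT hf n 0 (by norm_num) k hk
  rwa [TREE.N_zero, TREE.N_zero] at this

end Pool.Agent.R979.MD
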